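import Mathlib

/-! Definitions: `sl₂`-triples, the Lefschetz property on cohomology, and the first page of the
Rapoport-Zink (Steenbrink) weight spectral sequence built from the cohomology `B p` of the strata
`Y^(p+1)` with restriction maps `ρ` and Gysin maps `τ`. -/

namespace Pool.Agent.MP_855f4c_ag

/-- `(h, e, f)` satisfy the relations of the standard basis of `sl₂`. -/
def IsSl2 {F V : Type*} [Field F] [AddCommGroup V] [Module F V] (h e f : Module.End F V) : Prop :=
  e * f - f * e = h ∧ h * e - e * h = 2 * e ∧ h * f - f * h = -(2 * f)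

/-- For every `r`, the iterate `e^[r]` induces a bijection from the `h`-weight `-r` part of
`ker d / im d` onto its `h`-weight `r` part. -/
def CohLef (F : Type) {V : Type} [Field F] [AddCommGroup V] [Module F V] (d h e : V → V) : Prop :=
  ∀ r : ℕ,
    (∀ x, h x = -(r : F) • x → d x = 0 → (∃ z, e^[r] x = d z) → ∃ z, x = d z) ∧
    (∀ y, h y = (r : F) • y → d y = 0 → ∃ x z, h x = -(r : F) • x ∧ d x = 0 ∧ y = e^[r] x + d z)

variable {F : Type} [Field F] {B : ℕ → ModuleCat.{0} F}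

/-- The first page: families `x p k ∈ B p` with `0 ≤ k ≤ p`; `x p k` sits in column `2k - p`. -/
abbrev E1 (B : ℕ → ModuleCat.{0} F) : Type := (p : ℕ) → Fin (p + 1) → B p

/-- Stratum-wise action of a family of endomorphisms. -/
def diagF (T : ∀ p, Module.End F (B p)) (x : E1 B) : E1 B := fun p k => T p (x p k)

/-- Column grading: multiplication by `2k - p` on the `(p, k)` component. -/
def colF (x : E1 B) : E1 B := fun p k => (2 * ((k : ℕ) : F) - (p : F)) • x p k

/-- Monodromy: `(N x) p k = x p (k - 1)`, and `0` for `k = 0`. -/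
def monF (x : E1 B) : E1 B := fun p k => Fin.cases 0 (fun j => x p j.castSucc) k

/-- The differential: `(d x) p k = ρ (x (p-1) (k-1)) + τ (x (p+1) k)`, the first term being `0` when
`k = 0`. -/
def difF (ρ : ∀ p, B p →ₗ[F] B (p + 1)) (τ : ∀ p, B (p + 1) →ₗ[F] B p) (x : E1 B) : E1 B
  | 0, k => τ 0 (x 1 k.castSucc)
  | q + 1, k => Fin.cases 0 (fun j => ρ q (x q j)) k + τ (q + 1) (x (q + 2) k.castSucc)

/-- The Laplacian on `B (p + 1)`: `(p+2) τ ρ' + (p+1) ρ' τ - τ' ρ` with `ρ' = Λ ρ - ρ Λ` and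
`τ' = Λ τ - τ Λ`. -/
def lapF (Λ : ∀ p, Module.End F (B p)) (ρ : ∀ p, B p →ₗ[F] B (p + 1)) (τ : ∀ p, B (p + 1) →ₗ[F] B p)
    (p : ℕ) (x : B (p + 1)) : B (p + 1) :=
  ((p : F) + 2) • τ (p + 1) (Λ (p + 2) (ρ (p + 1) x) - ρ (p + 1) (Λ (p + 1) x)) +
    ((p : F) + 1) • (Λ (p + 1) (ρ p (τ p x)) - ρ p (Λ p (τ p x))) -
    (Λ (p + 1) (τ (p + 1) (ρ (p + 1) x)) - τ (p + 1) (Λ (p + 2) (ρ (p + 1) x)))

end Pool.Agent.MP_855f4c_ag
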