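import Pool.Agent.MP_855f4c_ag.Defs

/-! Definitions: purity, the monodromy filtration, monodromy-weight purity, Frobenius on the first
page of the weight spectral sequence, and its abutment. -/

namespace Pool.Agent.MP_855f4c_ag

variable {F : Type} [Field F] [CharZero F] {H : Type} [AddCommGroup H] [Module F H]

/-- `φ` is pure of weight `w` on `V / U`: a nonzero rational polynomial all of whose complex roots
have absolute value `q^(w/2)` maps `V` into `U`. -/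
def Pure (q : ℕ) (w : ℤ) (φ : Module.End F H) (U V : Submodule F H) : Prop :=
  ∃ P : Polynomial ℚ, P ≠ 0 ∧ (∀ z : ℂ, Polynomial.aeval z P = 0 → ‖z‖ ^ 2 = (q : ℝ) ^ w) ∧
    ∀ x ∈ V, Polynomial.aeval φ (P.map (algebraMap ℚ F)) x ∈ U

/-- `M` is a monodromy filtration of `N`: finite, increasing, `N M_a ⊆ M_(a-2)`, and `N^r` induces
a bijection `gr_r → gr_(-r)` for all `r ≥ 0`. -/
def IsMonFil (N : Module.End F H) (M : ℤ → Submodule F H) : Prop :=
  Monotone M ∧ (∃ a, M a = ⊥) ∧ (∃ a, M a = ⊤) ∧ (∀ a, ∀ x ∈ M a, N x ∈ M (a - 2)) ∧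
    ∀ r : ℕ, (∀ x ∈ M r, (N ^ r) x ∈ M (-r - 1) → x ∈ M (r - 1)) ∧
      ∀ y ∈ M (-r), ∃ x ∈ M r, y - (N ^ r) x ∈ M (-r - 1)

/-- Monodromy-weight purity of weight `i`. -/
def MwPure (q : ℕ) (i : ℤ) (φ N : Module.End F H) : Prop :=
  (∃ M, IsMonFil N M) ∧
    ∀ M, IsMonFil N M → ∀ a, (∀ x ∈ M a, φ x ∈ M a) ∧ Pure q (a + i) φ (M (a - 1)) (M a)

/-- Frobenius on the first page: `q^(p-k) Φ_p` on the `(p, k)` component. -/
def frobF {B : ℕ → ModuleCat.{0} F} (q : ℕ) (Φ : ∀ p, Module.End F (B p)) (x : E1 B) : E1 B :=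
  fun p k => (q : F) ^ (p - (k : ℕ)) • Φ p (x p k)

/-- `W` is a finite increasing filtration of `H`, stable under `φ` and shifted by `-2` by `N`, and
`π a` identifies `W_a / W_(a-1)` with the part of `ker d / im d` where `h = m` and `c = -a`,
compatibly with `(φ, φ')` and `(N, N')`. -/
def Abuts {E : Type} [AddCommGroup E] [Module F E] (d h c φ' N' : E → E) (m : F)
    (φ N : Module.End F H) (W : ℤ → Submodule F H) (π : ℤ → H →ₗ[F] E) : Prop :=
  Monotone W ∧ (∃ a, W a = ⊥) ∧ (∃ a, W a = ⊤) ∧ ∀ a : ℤ,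
    (∀ x ∈ W a, d (π a x) = 0 ∧ h (π a x) = m • π a x ∧ c (π a x) = -(a : F) • π a x ∧
      (x ∈ W (a - 1) ↔ ∃ z, π a x = d z) ∧
      φ x ∈ W a ∧ (∃ z, π a (φ x) = φ' (π a x) + d z) ∧
      N x ∈ W (a - 2) ∧ ∃ z, π (a - 2) (N x) = N' (π a x) + d z) ∧
    ∀ y, d y = 0 → h y = m • y → c y = -(a : F) • y → ∃ x ∈ W a, ∃ z, y = π a x + d z

end Pool.Agent.MP_855f4c_ag
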