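import Pool.Agent.MP_855f4c_ag.Defs

/-! Bundled (linear map) versions of the operators on the first page. -/

namespace Pool.Agent.MP_855f4c_ag

section

variable {F V : Type*} [Field F] [AddCommGroup V] [Module F V]

/-- For every `r`, the map `e ^ r` induces a bijection from the `h`-weight `-r` part of `ker d / im d`
onto its `h`-weight `r` part. -/
def CohLefschetz (d h e : Module.End F V) : Prop :=
  ∀ r : ℕ,
    (∀ x, h x = -(r : F) • x → d x = 0 → (e ^ r) x ∈ LinearMap.range d → x ∈ LinearMap.range d) ∧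
    (∀ y, h y = (r : F) • y → d y = 0 →
      ∃ x, h x = -(r : F) • x ∧ d x = 0 ∧ y - (e ^ r) x ∈ LinearMap.range d)

end

variable {F : Type} [Field F] {B : ℕ → ModuleCat.{0} F}

/-- Stratum-wise action of a family of endomorphisms. -/
def diag (T : ∀ p, Module.End F (B p)) : Module.End F (E1 B) where
  toFun x p k := T p (x p k)
  map_add' x y := by funext p k; simp
  map_smul' c x := by funext p k; simp

/-- Column grading: multiplication by `2k - p` on the `(p, k)` component. -/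
def col (B : ℕ → ModuleCat.{0} F) : Module.End F (E1 B) where
  toFun x p k := (2 * ((k : ℕ) : F) - (p : F)) • x p k
  map_add' x y := by funext p k; simp
  map_smul' c x := by funext p k; simp [smul_comm c]

/-- Monodromy: `(N x) p k = x p (k - 1)`, and `0` for `k = 0`. -/
def mon (B : ℕ → ModuleCat.{0} F) : Module.End F (E1 B) where
  toFun x p k := Fin.cases 0 (fun j => x p j.castSucc) k
  map_add' x y := by funext p k; induction k using Fin.cases <;> simp
  map_smul' c x := by funext p k; induction k using Fin.cases <;> simp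

/-- The differential: `(d x) p k = ρ (x (p-1) (k-1)) + τ (x (p+1) k)`, the first term being `0` when
`k = 0`. -/
def dif (ρ : ∀ p, B p →ₗ[F] B (p + 1)) (τ : ∀ p, B (p + 1) →ₗ[F] B p) : Module.End F (E1 B) where
  toFun x p k :=
    (match p, k with
      | 0, _ => 0
      | q + 1, k => Fin.cases 0 (fun j => ρ q (x q j)) k) + τ p (x (p + 1) k.castSucc)
  map_add' x y := by
    funext p k
    rcases p with _ | q
    · simp
    · induction k using Fin.cases
      · simp
      · simp; abel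
  map_smul' c x := by
    funext p k
    rcases p with _ | q
    · simp
    · induction k using Fin.cases <;> simp

/-- The Laplacian on `B (p + 1)`: `(p+2) τ ρ' + (p+1) ρ' τ - τ' ρ` with `ρ' = Λ ρ - ρ Λ` and
`τ' = Λ τ - τ Λ`. -/
def lap (Λ : ∀ p, Module.End F (B p)) (ρ : ∀ p, B p →ₗ[F] B (p + 1)) (τ : ∀ p, B (p + 1) →ₗ[F] B p)
    (p : ℕ) : Module.End F (B (p + 1)) :=
  ((p : F) + 2) • τ (p + 1) ∘ₗ (Λ (p + 2) ∘ₗ ρ (p + 1) - ρ (p + 1) ∘ₗ Λ (p + 1)) +
    ((p : F) + 1) • (Λ (p + 1) ∘ₗ ρ p - ρ p ∘ₗ Λ p) ∘ₗ τ p -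
    (Λ (p + 1) ∘ₗ τ (p + 1) - τ (p + 1) ∘ₗ Λ (p + 2)) ∘ₗ ρ (p + 1)

end Pool.Agent.MP_855f4c_ag

/-! Elementary theory of finite-dimensional `sl₂`-modules in characteristic zero, for three operators. -/

namespace Pool.Agent.MP_855f4c_ag

open Module

variable {F V : Type*} [Field F] [AddCommGroup V] [Module F V]

namespace IsSl2

variable {h e f : Module.End F V}

theorem symm (t : IsSl2 h e f) : IsSl2 (-h) f e := by
  obtain ⟨a, b, c⟩ := t
  refine ⟨by rw [← a]; abel, ?_, ?_⟩
  · have : -h * f - f * -h = -(h * f - f * h) := by noncomm_ring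
    rw [this, c]; simp
  · have : -h * e - e * -h = -(h * e - e * h) := by noncomm_ring
    rw [this, b]

theorem ef (t : IsSl2 h e f) (x : V) : e (f x) = f (e x) + h x := by
  have := congrArg (fun T : Module.End F V => T x) t.1
  simp only [LinearMap.sub_apply, Module.End.mul_apply] at this
  rw [← this]; abel

theorem he (t : IsSl2 h e f) (x : V) : h (e x) = e (h x) + (2 : F) • e x := by
  have := congrArg (fun T : Module.End F V => T x) t.2.1
  simp only [LinearMap.sub_apply, Module.End.mul_apply, two_mul, LinearMap.add_apply] at this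
  rw [two_smul, ← this]; abel

theorem hf (t : IsSl2 h e f) (x : V) : h (f x) = f (h x) - (2 : F) • f x := by
  have := congrArg (fun T : Module.End F V => T x) t.2.2
  simp only [LinearMap.sub_apply, Module.End.mul_apply, two_mul, LinearMap.add_apply,
    LinearMap.neg_apply] at this
  rw [two_smul, sub_eq_add_neg, ← this]; abel

theorem he_pow (t : IsSl2 h e f) (k : ℕ) (x : V) :
    h ((e ^ k) x) = (e ^ k) (h x) + (2 * (k : F)) • (e ^ k) x := by
  induction k with
  | zero => simp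
  | succ k ih =>
    rw [pow_succ', Module.End.mul_apply, Module.End.mul_apply, t.he, ih, map_add, map_smul]
    push_cast
    module

theorem wt_e (t : IsSl2 h e f) {x : V} {μ : F} (hx : h x = μ • x) : h (e x) = (μ + 2) • e x := by
  rw [t.he, hx, map_smul]; module

theorem wt_f (t : IsSl2 h e f) {x : V} {μ : F} (hx : h x = μ • x) : h (f x) = (μ - 2) • f x := by
  rw [t.hf, hx, map_smul]; module

theorem wt_e_pow (t : IsSl2 h e f) {x : V} {μ : F} (hx : h x = μ • x) (k : ℕ) :
    h ((e ^ k) x) = (μ + 2 * k) • (e ^ k) x := by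
  rw [t.he_pow, hx, map_smul]; module

theorem wt_f_pow (t : IsSl2 h e f) {x : V} {μ : F} (hx : h x = μ • x) (k : ℕ) :
    h ((f ^ k) x) = (μ - 2 * k) • (f ^ k) x := by
  have h1 : (-h) x = (-μ) • x := by simp [hx]
  have := t.symm.wt_e_pow h1 k
  rw [LinearMap.neg_apply, neg_eq_iff_eq_neg] at this
  rw [this]; module

/-- `f e^(k+1) = e^(k+1) f - (k+1) e^k (h + k)`. -/
theorem f_e_pow (t : IsSl2 h e f) (k : ℕ) (x : V) :
    f ((e ^ (k + 1)) x) = (e ^ (k + 1)) (f x) - ((k : F) + 1) • (e ^ k) (h x + (k : F) • x) := by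
  induction k with
  | zero =>
    simp only [zero_add, pow_one, Nat.cast_zero, pow_zero, Module.End.one_apply, zero_smul, add_zero,
      one_smul]
    rw [t.ef]; abel
  | succ k ih =>
    have h1 : f ((e ^ (k + 1 + 1)) x) = e (f ((e ^ (k + 1)) x)) - h ((e ^ (k + 1)) x) := by
      rw [pow_succ' e (k + 1), Module.End.mul_apply, t.ef]; abel
    rw [h1, ih, t.he_pow, map_sub, map_smul, ← Module.End.mul_apply e (e ^ (k + 1)),
      ← Module.End.mul_apply e (e ^ k), ← pow_succ', ← pow_succ']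
    simp only [map_add, map_smul]
    push_cast
    module

theorem f_e_pow_wt (t : IsSl2 h e f) {x : V} {μ : F} (hx : h x = μ • x) (k : ℕ) :
    f ((e ^ (k + 1)) x) = (e ^ (k + 1)) (f x) - (((k : F) + 1) * (μ + k)) • (e ^ k) x := by
  rw [t.f_e_pow, hx, map_add, map_smul, map_smul]; module

variable [CharZero F] [FiniteDimensional F V]

omit [CharZero F] in
theorem exists_bound (h : Module.End F V) [CharZero F] :
    ∃ R : ℕ, ∀ n : ℤ, (R : ℤ) ≤ |n| → ∀ x, h x = (n : F) • x → x = 0 := by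
  have hfin : Set.Finite {n : ℤ | h.HasEigenvalue (n : F)} :=
    h.finite_hasEigenvalue.preimage (Int.cast_injective.injOn)
  obtain ⟨B, hB⟩ := (hfin.image (fun n : ℤ => n.natAbs)).bddAbove
  refine ⟨B + 1, fun n hn x hx => ?_⟩
  by_contra h0
  have : h.HasEigenvalue (n : F) :=
    Module.End.hasEigenvalue_of_hasEigenvector ⟨Module.End.mem_eigenspace_iff.2 hx, h0⟩
  have h2 : n.natAbs ≤ B := hB ⟨n, this, rfl⟩
  have : (n.natAbs : ℤ) = |n| := Int.natCast_natAbs n
  push_cast at hn
  omega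

/-- Injectivity half of the Lefschetz property. -/
theorem inj (t : IsSl2 h e f) (r : ℕ) (x : V) (hx : h x = -(r : F) • x) (h0 : (e ^ r) x = 0) :
    x = 0 := by
  obtain ⟨R, hR⟩ := exists_bound h
  have key : ∀ s r : ℕ, R ≤ r + s → ∀ x, h x = -(r : F) • x → (e ^ r) x = 0 → x = 0 := by
    intro s
    induction s with
    | zero =>
      intro r hr x hx _
      refine hR (-(r : ℤ)) (by rw [abs_neg]; simp only [Nat.abs_cast]; omega) x (by simpa using hx)
    | succ s ih =>
      intro r hr x hx h0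
      have h1 : (e ^ (r + 1)) x = 0 := by rw [pow_succ', Module.End.mul_apply, h0, map_zero]
      have h2 : (e ^ (r + 1 + 1)) x = 0 := by rw [pow_succ', Module.End.mul_apply, h1, map_zero]
      have hf : f x = 0 := by
        refine ih (r + 2) (by omega) (f x) ?_ ?_
        · rw [t.wt_f hx]; push_cast; congr 1; ring
        · have := t.f_e_pow_wt hx (r + 1)
          rw [h2, h1, map_zero, smul_zero, sub_zero] at this
          exact this.symm
      have h3 : ∀ j : ℕ, j ≤ r → (e ^ (r - j)) x = 0 := by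
        intro j
        induction j with
        | zero => intro _; simpa using h0
        | succ j ihj =>
          intro hj
          have h4 := ihj (by omega)
          obtain ⟨k, hk⟩ : ∃ k, r - j = k + 1 := ⟨r - j - 1, by omega⟩
          have hk' : r - (j + 1) = k := by omega
          have := t.f_e_pow_wt hx k
          rw [← hk, h4, hf, map_zero, map_zero, zero_sub, eq_comm, neg_eq_zero, smul_eq_zero] at this
          rw [hk']
          refine this.resolve_left (mul_ne_zero (by exact_mod_cast Nat.succ_ne_zero k) ?_)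
          have hr' : (r : F) = k + (j + 1 : ℕ) := by
            have : r = k + (j + 1) := by omega
            rw [this]; push_cast; ring
          rw [hr']
          have : -((k : F) + ((j + 1 : ℕ) : F)) + k = -((j + 1 : ℕ) : F) := by ring
          rw [this, neg_ne_zero]
          exact_mod_cast Nat.succ_ne_zero j
      simpa using h3 r le_rfl
  exact key R r (by omega) x hx h0

omit [CharZero F] [FiniteDimensional F V] in
theorem pow_mem {M : Submodule F V} {T : Module.End F V} (hT : ∀ x ∈ M, T x ∈ M) (k : ℕ) :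
    ∀ x ∈ M, (T ^ k) x ∈ M := by
  induction k with
  | zero => simp
  | succ k ih => intro x hx; rw [pow_succ', Module.End.mul_apply]; exact hT _ (ih x hx)

/-- Surjectivity half of the Lefschetz property, inside a stable subspace. -/
theorem surj (t : IsSl2 h e f) (M : Submodule F V) (he : ∀ x ∈ M, e x ∈ M) (hf : ∀ x ∈ M, f x ∈ M)
    (r : ℕ) (y : V) (hyM : y ∈ M) (hy : h y = (r : F) • y) :
    ∃ x ∈ M, h x = -(r : F) • x ∧ (e ^ r) x = y := by
  let W : Submodule F V := M ⊓ h.eigenspace (r : F)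
  have hW : ∀ x ∈ W, (e ^ r * f ^ r) x ∈ W := by
    intro x hx
    refine ⟨pow_mem he r _ (pow_mem hf r _ hx.1), Module.End.mem_eigenspace_iff.2 ?_⟩
    have h1 := t.wt_f_pow (Module.End.mem_eigenspace_iff.1 hx.2) r
    have h2 := t.wt_e_pow h1 r
    rw [Module.End.mul_apply, h2]; congr 1; ring
  let g : W →ₗ[F] W := (e ^ r * f ^ r).restrict hW
  have hg : Function.Injective g := by
    rw [← LinearMap.ker_eq_bot, Submodule.eq_bot_iff]
    intro x hx
    have hx0 : (e ^ r) ((f ^ r) (x : V)) = 0 := congrArg Subtype.val (LinearMap.mem_ker.1 hx)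
    have hw := Module.End.mem_eigenspace_iff.1 x.2.2
    have h1 := t.wt_f_pow hw r
    have h2 : (f ^ r) (x : V) = 0 := t.inj r _ (by rw [h1]; congr 1; ring) hx0
    exact Subtype.ext (t.symm.inj r _ (by simp [hw]) h2)
  obtain ⟨x, hx⟩ := (LinearMap.injective_iff_surjective.1 hg) ⟨y, hyM, Module.End.mem_eigenspace_iff.2 hy⟩
  refine ⟨(f ^ r) (x : V), pow_mem hf r _ x.2.1, ?_, congrArg Subtype.val hx⟩
  rw [t.wt_f_pow (Module.End.mem_eigenspace_iff.1 x.2.2) r]; congr 1; ring

/-- A vector of weight `-r` killed by `e^(r+1)` is a lowest weight vector. -/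
theorem lowest (t : IsSl2 h e f) (r : ℕ) (x : V) (hx : h x = -(r : F) • x) (h0 : (e ^ (r + 1)) x = 0) :
    f x = 0 := by
  refine t.inj (r + 2) _ (by rw [t.wt_f hx]; push_cast; congr 1; ring) ?_
  have h2 : (e ^ (r + 1 + 1)) x = 0 := by rw [pow_succ', Module.End.mul_apply, h0, map_zero]
  have := t.f_e_pow_wt hx (r + 1)
  rw [h2, h0, map_zero, smul_zero, sub_zero] at this
  exact this.symm

/-- A lowest weight vector of weight `-r` is killed by `e^(r+1)`. -/
theorem top_zero (t : IsSl2 h e f) (r : ℕ) (x : V) (hx : h x = -(r : F) • x) (h0 : f x = 0) :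
    (e ^ (r + 1)) x = 0 := by
  have h1 := t.f_e_pow_wt hx r
  rw [h0, map_zero, neg_add_cancel, mul_zero, zero_smul, sub_zero] at h1
  refine t.symm.inj (r + 2) _ ?_ ?_
  · rw [LinearMap.neg_apply, t.wt_e_pow hx, ← neg_smul]; push_cast; congr 1; ring
  · rw [pow_succ, Module.End.mul_apply, h1, map_zero]

/-- Splitting off the lowest weight part. -/
theorem split (t : IsSl2 h e f) (M : Submodule F V) (he : ∀ x ∈ M, e x ∈ M) (hf : ∀ x ∈ M, f x ∈ M)
    (r : ℕ) (x : V) (hxM : x ∈ M) (hx : h x = -(r : F) • x) :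
    ∃ y ∈ M, h y = -((r + 2 : ℕ) : F) • y ∧ f (x - e y) = 0 := by
  obtain ⟨y, hyM, hy, hey⟩ := t.surj M he hf (r + 2) ((e ^ (r + 1)) x) (pow_mem he _ _ hxM)
    (by rw [t.wt_e_pow hx]; push_cast; congr 1; ring)
  refine ⟨y, hyM, hy, t.lowest r _ ?_ ?_⟩
  · rw [map_sub, hx, t.wt_e hy, smul_sub]; push_cast; congr 2; ring
  · rw [map_sub, ← hey, ← Module.End.mul_apply, ← pow_succ, sub_self]

/-- A stable subspace is generated by its lowest weight vectors. -/
theorem gen (t : IsSl2 h e f) (M M' : Submodule F V) (he : ∀ x ∈ M, e x ∈ M) (hf : ∀ x ∈ M, f x ∈ M)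
    (he' : ∀ x ∈ M', e x ∈ M')
    (hl : ∀ r : ℕ, ∀ x ∈ M, h x = -(r : F) • x → f x = 0 → x ∈ M') (n : ℤ) (x : V) (hxM : x ∈ M)
    (hx : h x = (n : F) • x) : x ∈ M' := by
  obtain ⟨R, hR⟩ := exists_bound h
  have key : ∀ s r : ℕ, R ≤ r + s → ∀ x ∈ M, h x = -(r : F) • x → x ∈ M' := by
    intro s
    induction s with
    | zero =>
      intro r hr x _ hx
      rw [hR (-(r : ℤ)) (by rw [abs_neg]; simp only [Nat.abs_cast]; omega) x (by simpa using hx)]
      exact M'.zero_mem
    | succ s ih =>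
      intro r hr x hxM hx
      obtain ⟨y, hyM, hy, hp⟩ := t.split M he hf r x hxM hx
      have h1 : y ∈ M' := ih (r + 2) (by omega) y hyM hy
      have h2 : x - e y ∈ M' := hl r _ (M.sub_mem hxM (he y hyM))
        (by rw [map_sub, hx, t.wt_e hy, smul_sub]; push_cast; congr 2; ring) hp
      simpa using M'.add_mem h2 (he' y h1)
  obtain ⟨r, rfl | rfl⟩ := Int.eq_nat_or_neg n
  · obtain ⟨y, hyM, hy, rfl⟩ := t.surj M he hf r x hxM (by simpa using hx)
    exact pow_mem he' r _ (key R r (by omega) y hyM hy)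
  · exact key R r (by omega) x hxM (by simpa using hx)

theorem nilpotent (t : IsSl2 h e f) : ∃ m : ℕ, e ^ m = 0 := by
  let A : Module.End F (Module.End F V) := LinearMap.mulLeft F h - LinearMap.mulRight F h
  obtain ⟨R, hR⟩ := exists_bound A
  refine ⟨R, hR (2 * R) (by rw [abs_of_nonneg (by positivity)]; omega) _ ?_⟩
  ext x
  simp only [A, LinearMap.sub_apply, LinearMap.mulLeft_apply, LinearMap.mulRight_apply,
    Module.End.mul_apply, LinearMap.smul_apply]
  rw [t.he_pow]; push_cast; abel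

/-- `h` is diagonalisable with integer eigenvalues. -/
theorem diag (t : IsSl2 h e f) : ⨆ n : ℤ, h.eigenspace (n : F) = ⊤ := by
  obtain ⟨m, hm⟩ := t.nilpotent
  let K : ℕ → ℕ → Submodule F V := fun a b => LinearMap.ker (e ^ (a + 1)) ⊓ LinearMap.range (e ^ b)
  let U : ℤ → Submodule F V := fun k => ⨆ n : {n : ℤ // k ≤ n}, h.eigenspace ((n : ℤ) : F)
  -- on `ker e ∩ im e^c`, `h - c` lands in `im e^(c+1)`
  have hA : ∀ (c : ℕ) (y : V), (e ^ (c + 1)) y = 0 →
      h ((e ^ c) y) - (c : F) • (e ^ c) y = (((c : F) + 1)⁻¹) • (e ^ (c + 1)) (f y) := by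
    intro c y hy
    have h1 := t.f_e_pow c y
    rw [hy, map_zero, eq_comm, sub_eq_zero] at h1
    have hc : ((c : F) + 1) ≠ 0 := by exact_mod_cast Nat.succ_ne_zero c
    rw [h1, smul_smul, inv_mul_cancel₀ hc, one_smul, t.he_pow, map_add, map_smul]; module
  have hU : ∀ (k : ℤ) (y : V), y ∈ U (k + 1) → ∃ y' ∈ U (k + 1), h y' - (k : F) • y' = y := by
    intro k y hy
    refine Submodule.iSup_induction (p := fun n : {n : ℤ // k + 1 ≤ n} => h.eigenspace ((n : ℤ) : F))
      (motive := fun y => ∃ y' ∈ U (k + 1), h y' - (k : F) • y' = y) hy ?_ ⟨0, zero_mem _, by simp⟩ ?_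
    · intro n x hx
      have hn : (((n : ℤ) : F) - k) ≠ 0 := by
        have : ((n : ℤ) - k : ℤ) ≠ 0 := by have := n.2; omega
        exact_mod_cast this
      refine ⟨(((n : ℤ) : F) - k)⁻¹ • x, Submodule.smul_mem _ _ (Submodule.mem_iSup_of_mem n hx), ?_⟩
      rw [map_smul, Module.End.mem_eigenspace_iff.1 hx, smul_comm (k : F), ← smul_sub, ← sub_smul,
        smul_smul, inv_mul_cancel₀ hn, one_smul]
    · rintro x y ⟨x', hx', rfl⟩ ⟨y', hy', rfl⟩
      exact ⟨x' + y', add_mem hx' hy', by rw [map_add, smul_add]; abel⟩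
  have hUle : ∀ k : ℤ, U (k + 1) ≤ U k := fun k =>
    iSup_le fun n => le_iSup_of_le (f := fun n : {n : ℤ // k ≤ n} => h.eigenspace ((n : ℤ) : F))
      ⟨n, by have := n.2; omega⟩ le_rfl
  have hstep : ∀ (k : ℤ) (x : V), h x - (k : F) • x ∈ U (k + 1) → x ∈ U k := by
    intro k x hx
    obtain ⟨y', hy', hy⟩ := hU k _ hx
    have h1 : x - y' ∈ U k := Submodule.mem_iSup_of_mem
      (p := fun n : {n : ℤ // k ≤ n} => h.eigenspace ((n : ℤ) : F)) ⟨k, le_rfl⟩
      (Module.End.mem_eigenspace_iff.2 (by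
        rw [map_sub, smul_sub, sub_eq_sub_iff_sub_eq_sub]; exact hy.symm))
    simpa using add_mem h1 (hUle k hy')
  have key : ∀ s a b : ℕ, a + m ≤ s + b → K a b ≤ U ((b : ℤ) - a) := by
    intro s
    induction s with
    | zero =>
      rintro a b hab x ⟨-, y, rfl⟩
      have : e ^ b = 0 := by
        obtain ⟨c, rfl⟩ : ∃ c, b = m + c := ⟨b - m, by omega⟩
        rw [pow_add, hm, zero_mul]
      rw [this]; exact zero_mem _
    | succ s ih =>
      rintro a b hab x ⟨hx, y, rfl⟩
      have hx' : (e ^ (a + b + 1)) y = 0 := by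
        have : (e ^ (a + 1)) ((e ^ b) y) = 0 := hx
        rwa [← Module.End.mul_apply, ← pow_add, show a + 1 + b = a + b + 1 by ring] at this
      have h1 := hA (a + b) y hx'
      set c : F := (((a + b : ℕ) : F) + 1)⁻¹ with hc
      apply hstep
      set z := h ((e ^ b) y) - (((b : ℤ) - a : ℤ) : F) • (e ^ b) y with hz
      set w := c • (e ^ (b + 1)) (f y) with hw
      have hez : (e ^ a) z = (e ^ a) w := by
        have h2 := t.he_pow a ((e ^ b) y)
        rw [hz, hw, map_sub, map_smul, map_smul, ← Module.End.mul_apply (e ^ a) (e ^ (b + 1)), ← pow_add,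
          ← add_assoc, ← h1, pow_add, Module.End.mul_apply, h2]
        push_cast; module
      have hwK : w ∈ K a (b + 1) := by
        refine ⟨?_, Submodule.smul_mem _ _ ⟨_, rfl⟩⟩
        show (e ^ (a + 1)) w = 0
        rw [pow_succ', Module.End.mul_apply, ← hez, hz, ← Module.End.mul_apply, ← pow_succ', map_sub,
          map_smul, hx]
        have h2 := t.he_pow (a + 1) ((e ^ b) y)
        have hx2 : (e ^ (a + 1)) ((e ^ b) y) = 0 := hx
        rw [hx2, map_zero, smul_zero, add_zero] at h2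
        rw [← h2]; simp
      have hw2 : w ∈ U ((b : ℤ) - a + 1) := by
        have := ih a (b + 1) (by omega) hwK
        rwa [show ((b + 1 : ℕ) : ℤ) - a = (b : ℤ) - a + 1 by push_cast; ring] at this
      have hzw : z - w ∈ U ((b : ℤ) - a + 1) := by
        rcases a with _ | a
        · have : z = w := by simpa using hez
          rw [this, sub_self]; exact zero_mem _
        · have hK : z - w ∈ K a b := by
            refine ⟨?_, sub_mem (sub_mem ?_ (Submodule.smul_mem _ _ ⟨_, rfl⟩))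
              (Submodule.smul_mem _ _ ⟨e (f y), by rw [pow_succ]; rfl⟩)⟩
            · show (e ^ (a + 1)) (z - w) = 0
              rw [map_sub, hez, sub_self]
            · rw [t.he_pow]
              exact add_mem ⟨_, rfl⟩ (Submodule.smul_mem _ _ ⟨_, rfl⟩)
          have := ih a b (by omega) hK
          rwa [show (b : ℤ) - a = (b : ℤ) - ((a + 1 : ℕ) : ℤ) + 1 by push_cast; ring] at this
      simpa using add_mem hzw hw2
  rw [eq_top_iff]
  intro x _
  have hx : x ∈ K m 0 := ⟨by show (e ^ (m + 1)) x = 0; rw [pow_succ', hm]; simp, ⟨x, by simp⟩⟩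
  have := key (m + m) m 0 (by omega) hx
  exact (iSup_le fun n => le_iSup (fun n : ℤ => h.eigenspace (n : F)) n.1 : U _ ≤ _) this

end IsSl2

/-- Weight projectors of an operator that is diagonalisable with integer eigenvalues. -/
theorem exists_proj [CharZero F] (h : Module.End F V) (hd : ⨆ n : ℤ, h.eigenspace (n : F) = ⊤) :
    ∃ pr : ℤ → Module.End F V, (∀ n x, h (pr n x) = (n : F) • pr n x) ∧
      (∀ (n m : ℤ) x, h x = (m : F) • x → pr n x = if n = m then x else 0) := by
  have hi : iSupIndep fun n : ℤ => h.eigenspace (n : F) :=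
    h.eigenspaces_iSupIndep.comp Int.cast_injective
  have hc : ∀ n : ℤ, IsCompl (h.eigenspace (n : F)) (⨆ m : ℤ, ⨆ _ : m ≠ n, h.eigenspace (m : F)) := by
    intro n
    refine ⟨hi n, codisjoint_iff.2 (eq_top_iff.2 ?_)⟩
    rw [← hd]
    refine iSup_le fun m => ?_
    by_cases hm : m = n
    · subst hm; exact le_sup_left
    · exact le_sup_of_le_right (le_iSup₂_of_le (f := fun (m : ℤ) (_ : m ≠ n) => h.eigenspace (m : F)) m hm le_rfl)
  refine ⟨fun n => (h.eigenspace (n : F)).subtype ∘ₗ Submodule.projectionOnto _ _ (hc n), ?_, ?_⟩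
  · intro n x
    exact Module.End.mem_eigenspace_iff.1 (Submodule.projectionOnto _ _ (hc n) x).2
  · intro n m x hx
    split_ifs with hnm
    · subst hnm
      exact congrArg Subtype.val
        (Submodule.projectionOnto_apply_left (hc n) ⟨x, Module.End.mem_eigenspace_iff.2 hx⟩)
    · have hx' : x ∈ ⨆ m : ℤ, ⨆ _ : m ≠ n, h.eigenspace (m : F) :=
        le_iSup₂_of_le (f := fun (m : ℤ) (_ : m ≠ n) => h.eigenspace (m : F)) m (Ne.symm hnm) le_rfl
          (Module.End.mem_eigenspace_iff.2 hx)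
      exact congrArg Subtype.val (Submodule.projectionOnto_apply_of_mem_right (hc n) hx')

/-- Induction over weight vectors inside an `h`-stable subspace. -/
theorem wt_induction [CharZero F] [FiniteDimensional F V] (h : Module.End F V)
    (hd : ⨆ n : ℤ, h.eigenspace (n : F) = ⊤) (M M' : Submodule F V) (hM : ∀ x ∈ M, h x ∈ M)
    (hw : ∀ n : ℤ, ∀ x ∈ M, h x = (n : F) • x → x ∈ M') : M ≤ M' := by
  have h1 : ⨆ μ : F, h.genEigenspace μ 1 = ⊤ := by
    rw [eq_top_iff, ← hd]
    exact iSup_le fun n => le_iSup (fun μ : F => h.genEigenspace μ 1) (n : F)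
  rw [Submodule.eq_iSup_inf_genEigenspace 1 hM h1]
  refine iSup_le fun μ x hx => ?_
  by_cases hμ : ∃ n : ℤ, (n : F) = μ
  · obtain ⟨n, rfl⟩ := hμ
    exact hw n x hx.1 (Module.End.mem_eigenspace_iff.1 hx.2)
  · have h2 : Disjoint (h.eigenspace μ) (⨆ ν : F, ⨆ _ : ν ≠ μ, h.eigenspace ν) := h.eigenspaces_iSupIndep μ
    have h3 : x ∈ ⨆ ν : F, ⨆ _ : ν ≠ μ, h.eigenspace ν := by
      have : (⊤ : Submodule F V) ≤ ⨆ ν : F, ⨆ _ : ν ≠ μ, h.eigenspace ν := by
        rw [← hd]
        exact iSup_le fun n => le_iSup₂_of_le (f := fun (ν : F) (_ : ν ≠ μ) => h.eigenspace ν) (n : F)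
          (fun e => hμ ⟨n, e⟩) le_rfl
      exact this trivial
    rw [Submodule.disjoint_def.1 h2 x hx.2 h3]
    exact M'.zero_mem

/-- Weight projectors with their two basic properties. -/
theorem exists_proj' [CharZero F] [FiniteDimensional F V] (h : Module.End F V)
    (hd : ⨆ n : ℤ, h.eigenspace (n : F) = ⊤) :
    ∃ pr : ℤ → Module.End F V, (∀ n x, h (pr n x) = (n : F) • pr n x) ∧
      (∀ (n : ℤ) x, h x = (n : F) • x → pr n x = x) ∧
      (∀ (T : Module.End F V) (c : ℤ), (∀ x, h (T x) = T (h x) + (c : F) • T x) →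
        ∀ n x, pr (n + c) (T x) = T (pr n x)) ∧
      (∀ M : Submodule F V, (∀ x ∈ M, h x ∈ M) → ∀ n, ∀ x ∈ M, pr n x ∈ M) := by
  obtain ⟨pr, h1, h2⟩ := exists_proj h hd
  refine ⟨pr, h1, fun n x hx => by simpa using h2 n n x hx, ?_, ?_⟩
  · intro T c hT n x
    have := wt_induction h hd ⊤ (LinearMap.ker (pr (n + c) * T - T * pr n)) (fun _ _ => trivial)
      (fun m x _ hx => by
        have h3 : h (T x) = ((m + c : ℤ) : F) • T x := by
          rw [hT, hx, map_smul]; push_cast; module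
        rw [LinearMap.mem_ker, LinearMap.sub_apply, Module.End.mul_apply, Module.End.mul_apply,
          h2 _ _ _ h3, h2 _ _ _ hx]
        by_cases hnm : n = m
        · simp [hnm]
        · simp [hnm]) (Submodule.mem_top (x := x))
    simpa [sub_eq_zero] using this
  · intro M hM n x hx
    refine wt_induction h hd M (M.comap (pr n)) hM (fun m x hxM hx => ?_) hx
    rw [Submodule.mem_comap, h2 _ _ _ hx]
    split_ifs
    · exact hxM
    · exact M.zero_mem

end Pool.Agent.MP_855f4c_ag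

/-! The `d d'`-lemma for a differential commuting with a Lefschetz operator that stays Lefschetz on
cohomology. -/

namespace Pool.Agent.MP_855f4c_ag

open Module

variable {F V : Type*} [Field F] [AddCommGroup V] [Module F V]

theorem comm_pow {a b : Module.End F V} (hab : ∀ x, a (b x) = b (a x)) (k : ℕ) (x : V) :
    a ((b ^ k) x) = (b ^ k) (a x) := by
  induction k with
  | zero => simp
  | succ k ih => rw [pow_succ', Module.End.mul_apply, Module.End.mul_apply, hab, ih]

/-- The data used in the `d d'`-lemma. -/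
structure DD (h e f d d' : Module.End F V) : Prop where
  t : IsSl2 h e f
  de : ∀ x, d (e x) = e (d x)
  hd : ∀ x, h (d x) = d (h x) + d x
  dd : ∀ x, d (d x) = 0
  fd : ∀ x, f (d x) = d (f x) + d' x
  ed' : ∀ x, e (d' x) = d' (e x) + d x
  fd' : ∀ x, f (d' x) = d' (f x)
  hd' : ∀ x, h (d' x) = d' (h x) - d' x
  dd' : ∀ x, d' (d x) = -d (d' x)
  d'd' : ∀ x, d' (d' x) = 0
  HL : CohLefschetz d h e

namespace DD

variable {h e f d d' : Module.End F V} [CharZero F] [FiniteDimensional F V]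

omit [CharZero F] [FiniteDimensional F V] in
theorem e_pow_d' (D : DD h e f d d') (k : ℕ) (x : V) :
    (e ^ (k + 1)) (d' x) = d' ((e ^ (k + 1)) x) + ((k : F) + 1) • d ((e ^ k) x) := by
  induction k with
  | zero => simpa using D.ed' x
  | succ k ih =>
    rw [pow_succ' e (k + 1), Module.End.mul_apply, Module.End.mul_apply, ih, map_add, map_smul, D.ed',
      ← D.de, ← Module.End.mul_apply e (e ^ k), ← pow_succ']
    push_cast; module

/-- Weight vectors in the range of a homogeneous map have homogeneous preimages. -/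
theorem pre2 (D : DD h e f d d') (n : ℤ) (z a b : V) (hz : h z = (n : F) • z) (hab : z = d a + d' b) :
    ∃ a b, h a = ((n - 1 : ℤ) : F) • a ∧ h b = ((n + 1 : ℤ) : F) • b ∧ z = d a + d' b := by
  obtain ⟨pr, p1, p2, p3, -⟩ := exists_proj' h D.t.diag
  refine ⟨pr (n - 1) a, pr (n + 1) b, p1 _ _, p1 _ _, ?_⟩
  have h1 := p3 d 1 (fun x => by rw [D.hd]; simp) (n - 1) a
  have h2 := p3 d' (-1) (fun x => by rw [D.hd']; simp [sub_eq_add_neg]) (n + 1) b
  rw [sub_add_cancel] at h1
  rw [add_neg_cancel_right] at h2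
  rw [← h1, ← h2, ← map_add, ← hab, p2 _ _ hz]

theorem pre1 (D : DD h e f d d') (n : ℤ) (z : V) (hz : h z = (n : F) • z) (ha : z ∈ LinearMap.range d) :
    ∃ a, h a = ((n - 1 : ℤ) : F) • a ∧ z = d a := by
  obtain ⟨a, ha⟩ := ha
  obtain ⟨pr, p1, p2, p3, -⟩ := exists_proj' h D.t.diag
  refine ⟨pr (n - 1) a, p1 _ _, ?_⟩
  have h1 := p3 d 1 (fun x => by rw [D.hd]; simp) (n - 1) a
  rw [sub_add_cancel] at h1
  rw [← h1, ha, p2 _ _ hz]

/-- Every cycle is cohomologous to one killed by `d'`. -/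
theorem S1 (D : DD h e f d d') :
    LinearMap.ker d ≤ (LinearMap.ker d ⊓ LinearMap.ker d') ⊔ LinearMap.range d := by
  set M' := (LinearMap.ker d ⊓ LinearMap.ker d') ⊔ LinearMap.range d with hM'
  have heM : ∀ x ∈ M', e x ∈ M' := by
    intro x hx
    obtain ⟨z, hz, _, ⟨a, rfl⟩, rfl⟩ := Submodule.mem_sup.1 hx
    have h1 : d z = 0 := hz.1
    have h2 : d' z = 0 := hz.2
    rw [map_add, ← D.de]
    refine Submodule.add_mem_sup ⟨?_, ?_⟩ ⟨_, rfl⟩
    · show d (e z) = 0
      rw [D.de, h1, map_zero]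
    · show d' (e z) = 0
      have := D.ed' z
      rw [h1, h2, map_zero, add_zero] at this
      exact this.symm
  obtain ⟨R, hR⟩ := IsSl2.exists_bound h
  have key : ∀ s r : ℕ, R ≤ r + s → ∀ x, d x = 0 → h x = -(r : F) • x → x ∈ M' := by
    intro s
    induction s with
    | zero =>
      intro r hr x _ hx
      rw [hR (-(r : ℤ)) (by rw [abs_neg]; simp only [Nat.abs_cast]; omega) x (by simpa using hx)]
      exact M'.zero_mem
    | succ s ih =>
      intro r hr x hdx hx
      obtain ⟨y, hy, hdy, hxy⟩ := (D.HL (r + 2)).2 ((e ^ (r + 1)) x)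
        (by rw [D.t.wt_e_pow hx]; push_cast; congr 1; ring) (by rw [comm_pow D.de, hdx, map_zero])
      have h1 : y ∈ M' := ih (r + 2) (by omega) y hdy hy
      have hp : h (x - e y) = -(r : F) • (x - e y) := by
        rw [map_sub, hx, D.t.wt_e hy, smul_sub]; push_cast; congr 2; ring
      have hp2 : (e ^ (r + 1)) (x - e y) ∈ LinearMap.range d := by
        rwa [map_sub, ← Module.End.mul_apply (e ^ (r + 1)) e, ← pow_succ]
      obtain ⟨a, ha, hda⟩ := D.pre1 (r + 2) _
        (by rw [D.t.wt_e_pow hp]; push_cast; congr 1; ring) hp2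
      obtain ⟨a₀, -, ha₀, rfl⟩ := D.t.surj ⊤ (fun _ _ => trivial) (fun _ _ => trivial) (r + 1) a trivial
        (by rw [ha]; push_cast; congr 1; ring)
      have hw : h (x - e y - d a₀) = -(r : F) • (x - e y - d a₀) := by
        rw [map_sub, hp, D.hd, ha₀, map_smul]; push_cast; module
      have hf : f (x - e y - d a₀) = 0 := D.t.lowest r _ hw (by
        rw [map_sub, hda, comm_pow D.de, sub_self])
      have hd0 : d (x - e y - d a₀) = 0 := by
        rw [map_sub, map_sub, hdx, D.de, hdy, D.dd]; simp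
      have hd1 : d' (x - e y - d a₀) = 0 := by
        have := D.fd (x - e y - d a₀)
        rw [hd0, hf, map_zero, map_zero, zero_add] at this
        exact this.symm
      have h2 : x - e y - d a₀ + d a₀ ∈ M' := Submodule.add_mem_sup ⟨hd0, hd1⟩ ⟨_, rfl⟩
      simpa using M'.add_mem h2 (heM y h1)
  refine wt_induction h D.t.diag _ _ (fun x hx => ?_) (fun n x hdx hx => ?_)
  · have h1 : d x = 0 := hx
    have := D.hd x
    rw [h1, map_zero, add_zero] at this
    exact this.symm
  · obtain ⟨r, rfl | rfl⟩ := Int.eq_nat_or_neg n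
    · obtain ⟨y, hy, hdy, hxy⟩ := (D.HL r).2 x (by simpa using hx) hdx
      have h1 := IsSl2.pow_mem heM r _ (key R r (by omega) y hdy hy)
      simpa using M'.add_mem (Submodule.mem_sup_right hxy) h1
    · exact key R r (by omega) x hdx (by simpa using hx)

/-- The `d d'`-lemma. -/
theorem S2 (D : DD h e f d d') :
    (LinearMap.ker d ⊓ LinearMap.ker d') ⊓ (LinearMap.range d ⊔ LinearMap.range d') ≤
      LinearMap.range (d * d') := by
  set M := (LinearMap.ker d ⊓ LinearMap.ker d') ⊓ (LinearMap.range d ⊔ LinearMap.range d') with hM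
  have hmem : ∀ x, x ∈ M ↔ d x = 0 ∧ d' x = 0 ∧ ∃ a b, x = d a + d' b := by
    intro x
    constructor
    · rintro ⟨⟨h1, h2⟩, h3⟩
      obtain ⟨_, ⟨a, rfl⟩, _, ⟨b, rfl⟩, rfl⟩ := Submodule.mem_sup.1 h3
      exact ⟨h1, h2, a, b, rfl⟩
    · rintro ⟨h1, h2, a, b, rfl⟩
      exact ⟨⟨h1, h2⟩, Submodule.add_mem_sup ⟨_, rfl⟩ ⟨_, rfl⟩⟩
  have heM : ∀ x ∈ M, e x ∈ M := by
    intro x hx
    obtain ⟨h1, h2, a, b, hab⟩ := (hmem x).1 hx
    refine (hmem _).2 ⟨by rw [D.de, h1, map_zero], ?_, e a + b, e b, ?_⟩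
    · have := D.ed' x
      rw [h1, h2, map_zero, add_zero] at this
      exact this.symm
    · rw [hab, map_add, map_add, D.ed', D.de]; abel
  have hfM : ∀ x ∈ M, f x ∈ M := by
    intro x hx
    obtain ⟨h1, h2, a, b, hab⟩ := (hmem x).1 hx
    refine (hmem _).2 ⟨?_, by rw [← D.fd', h2, map_zero], f a, a + f b, ?_⟩
    · have := D.fd x
      rw [h1, h2, map_zero, add_zero] at this
      exact this.symm
    · rw [hab, map_add, map_add, D.fd, D.fd']; abel
  have hhM : ∀ x ∈ M, h x ∈ M := by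
    intro x hx
    have : h x = e (f x) - f (e x) := by rw [D.t.ef]; abel
    rw [this]
    exact M.sub_mem (heM _ (hfM _ hx)) (hfM _ (heM _ hx))
  have heR : ∀ x ∈ LinearMap.range (d * d'), e x ∈ LinearMap.range (d * d') := by
    rintro _ ⟨w, rfl⟩
    refine ⟨e w, ?_⟩
    rw [Module.End.mul_apply, Module.End.mul_apply, ← D.de, D.ed', map_add, D.dd, add_zero]
  refine wt_induction h D.t.diag _ _ hhM (fun n x hxM hx => D.t.gen M _ heM hfM heR ?_ n x hxM hx)
  intro r z hzM hz hfz
  have htop := D.t.top_zero r z hz hfz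
  have hdz : d z = 0 := ((hmem z).1 hzM).1
  -- step 1: `z` is a boundary
  have hz1 : z ∈ LinearMap.range d := by
    refine (D.HL r).1 z hz hdz ?_
    obtain ⟨h1, -, a, b, hab⟩ := (hmem _).1 (IsSl2.pow_mem heM r z hzM)
    obtain ⟨a, b, ha, hb, hab⟩ := D.pre2 r _ a b
      (by rw [D.t.wt_e_pow hz]; push_cast; congr 1; ring) hab
    obtain ⟨b₀, -, hb₀, rfl⟩ := D.t.surj ⊤ (fun _ _ => trivial) (fun _ _ => trivial) (r + 1) b trivial
      (by rw [hb]; push_cast; rfl)
    have h2 := D.e_pow_d' r b₀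
    have h3 : (e ^ r) z = d (a - ((r : F) + 1) • (e ^ r) b₀) + (e ^ (r + 1)) (d' b₀) := by
      rw [hab, h2, map_sub, map_smul]; abel
    have hc : h (d' b₀) = -((r + 2 : ℕ) : F) • d' b₀ := by
      rw [D.hd', hb₀, map_smul]; push_cast; module
    have hdc : d (d' b₀) = 0 := by
      refine D.t.inj (r + 1) _ (by rw [D.hd, hc, map_smul]; push_cast; module) ?_
      rw [h3, map_add, D.dd, zero_add, comm_pow D.de] at h1
      exact h1
    have h4 : (e ^ (r + 2)) (d' b₀) ∈ LinearMap.range d := by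
      refine ⟨-e (a - ((r : F) + 1) • (e ^ r) b₀), ?_⟩
      have h5 : e ((e ^ r) z) = 0 := by rw [← Module.End.mul_apply, ← pow_succ', htop]
      rw [h3, map_add, ← D.de, ← Module.End.mul_apply e (e ^ (r + 1)), ← pow_succ'] at h5
      rw [map_neg, neg_eq_iff_add_eq_zero]
      exact h5
    obtain ⟨c, hc'⟩ := (D.HL (r + 2)).1 _ hc hdc h4
    rw [h3, ← hc', ← comm_pow D.de]
    exact add_mem ⟨_, rfl⟩ ⟨_, rfl⟩
  -- step 2
  obtain ⟨a, ha, rfl⟩ := D.pre1 (-(r : ℤ)) z (by simpa using hz) hz1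
  have ha' : h a = -((r + 1 : ℕ) : F) • a := by rw [ha]; push_cast; congr 1; ring
  obtain ⟨u, hu, hdu, hv⟩ := (D.HL (r + 1)).2 ((e ^ (r + 1)) a)
    (by rw [D.t.wt_e_pow ha']; push_cast; congr 1; ring) (by rw [comm_pow D.de, htop])
  have hau : h (a - u) = -((r + 1 : ℕ) : F) • (a - u) := by rw [map_sub, ha', hu, smul_sub]
  rw [← map_sub] at hv
  obtain ⟨v, hv, hdv⟩ := D.pre1 (r + 1) _ (by rw [D.t.wt_e_pow hau]; push_cast; congr 1; ring) hv
  obtain ⟨v₀, -, hv₀, rfl⟩ := D.t.surj ⊤ (fun _ _ => trivial) (fun _ _ => trivial) r v trivial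
    (by rw [hv]; push_cast; congr 1; ring)
  obtain ⟨y, -, hy, hp⟩ := D.t.split ⊤ (fun _ _ => trivial) (fun _ _ => trivial) r v₀ trivial hv₀
  set p := v₀ - e y with hpdef
  have hpw : h p = -(r : F) • p := by
    rw [hpdef, map_sub, hv₀, D.t.wt_e hy, smul_sub]; push_cast; congr 2; ring
  have hpt := D.t.top_zero r p hpw hp
  have hr : ((r : F) + 1) ≠ 0 := by exact_mod_cast Nat.succ_ne_zero r
  have h6 := D.e_pow_d' r p
  rw [hpt, map_zero, zero_add] at h6
  have h7 : a - u - d y - ((r : F) + 1)⁻¹ • d' p = 0 := by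
    refine D.t.inj (r + 1) _ ?_ ?_
    · rw [map_sub, map_sub, hau, D.hd, hy, map_smul, map_smul, D.hd', hpw, map_smul]
      push_cast; module
    · have hv0 : v₀ = p + e y := by rw [hpdef]; abel
      rw [map_sub, map_sub, hdv, map_smul, h6, smul_smul, inv_mul_cancel₀ hr, one_smul, hv0, map_add,
        map_add, ← Module.End.mul_apply (e ^ r) e, ← pow_succ, comm_pow D.de (r + 1)]
      abel
  refine ⟨((r : F) + 1)⁻¹ • p, ?_⟩
  have h8 : a = u + d y + ((r : F) + 1)⁻¹ • d' p := by
    rw [← sub_eq_zero, ← h7]; abel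
  rw [h8, map_add, map_add, hdu, D.dd, map_smul, map_smul, Module.End.mul_apply]; simp

theorem S3 (D : DD h e f d d') (x : V) (hx : d (d' x) = 0) :
    ∃ z a b, d z = 0 ∧ d' z = 0 ∧ x = z + d a + d' b := by
  obtain ⟨b, hb⟩ := D.S2 (x := d x) ⟨⟨D.dd x, by
    show d' (d x) = 0
    rw [D.dd', hx, neg_zero]⟩, Submodule.mem_sup_left ⟨_, rfl⟩⟩
  have h1 : d (x - d' b) = 0 := by rw [map_sub, ← hb]; simp
  obtain ⟨z, hz, _, ⟨a, rfl⟩, h2⟩ := Submodule.mem_sup.1 (D.S1 h1)
  exact ⟨z, a, b, hz.1, hz.2, by rw [h2]; abel⟩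

end DD

end Pool.Agent.MP_855f4c_ag

/-! Differential bi-Lefschetz modules without polarisation: if the Laplacian is semisimple at `0` away
from the `N`-invariants and `L` is Lefschetz on cohomology, then so is `N`. -/

namespace Pool.Agent.MP_855f4c_ag

open Module

variable {F V : Type*} [Field F] [AddCommGroup V] [Module F V]

/-- The adjoint action of an `sl₂`-triple. -/
theorem IsSl2.ad {h e f : Module.End F V} (t : IsSl2 h e f) :
    IsSl2 (LinearMap.mulLeft F h - LinearMap.mulRight F h) (LinearMap.mulLeft F e - LinearMap.mulRight F e)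
      (LinearMap.mulLeft F f - LinearMap.mulRight F f) := by
  obtain ⟨a, b, c⟩ := t
  refine ⟨?_, ?_, ?_⟩
  · refine LinearMap.ext fun x => ?_
    simp only [LinearMap.sub_apply, Module.End.mul_apply, LinearMap.mulLeft_apply,
      LinearMap.mulRight_apply]
    rw [← a]; noncomm_ring
  · refine LinearMap.ext fun x => ?_
    simp only [LinearMap.sub_apply, Module.End.mul_apply, LinearMap.mulLeft_apply,
      LinearMap.mulRight_apply, two_mul, LinearMap.add_apply]
    have : h * (e * x - x * e) - (e * x - x * e) * h - (e * (h * x - x * h) - (h * x - x * h) * e) =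
        (h * e - e * h) * x - x * (h * e - e * h) := by noncomm_ring
    rw [this, b]; noncomm_ring
  · refine LinearMap.ext fun x => ?_
    simp only [LinearMap.sub_apply, Module.End.mul_apply, LinearMap.mulLeft_apply,
      LinearMap.mulRight_apply, two_mul, LinearMap.add_apply, LinearMap.neg_apply]
    have : h * (f * x - x * f) - (f * x - x * f) * h - (f * (h * x - x * h) - (h * x - x * h) * f) =
        (h * f - f * h) * x - x * (h * f - f * h) := by noncomm_ring
    rw [this, c]; noncomm_ring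

/-- A highest weight operator of weight one is killed by `(ad f)²`. -/
theorem IsSl2.ad_sq [CharZero F] [FiniteDimensional F V] {h e f : Module.End F V} (t : IsSl2 h e f)
    (x : Module.End F V) (hx : h * x - x * h = x) (ex : e * x = x * e) :
    f * (f * x - x * f) = (f * x - x * f) * f := by
  have := t.ad.symm.top_zero 1 x (by
    simp only [LinearMap.neg_apply, LinearMap.sub_apply, LinearMap.mulLeft_apply,
      LinearMap.mulRight_apply, hx]; simp) (by simp [ex])
  simpa [pow_succ, sub_eq_zero] using this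

theorem two_torsion [CharZero F] {x : Module.End F V} (hx : x + x = 0) : x = 0 := by
  have : (2 : F) • x = 0 := by rw [two_smul, hx]
  simpa using this

/-- Fitting projector onto the generalised kernel. -/
theorem exists_fitting [FiniteDimensional F V] (T : Module.End F V) :
    ∃ (p g : Module.End F V) (k : ℕ), p + g * T = 1 ∧ T ^ k * p = 0 ∧
      (∀ S, Commute S T → Commute S p) ∧ (∀ S, Commute S T → Commute S g) := by
  have hm : minpoly F T ≠ 0 := minpoly.ne_zero (Algebra.IsIntegral.isIntegral T)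
  obtain ⟨q, hq, hq0⟩ := Polynomial.exists_eq_pow_rootMultiplicity_mul_and_not_dvd (minpoly F T) hm 0
  set k := Polynomial.rootMultiplicity 0 (minpoly F T)
  simp only [map_zero, sub_zero] at hq hq0
  have hcop : IsCoprime (Polynomial.X ^ (k + 1) : Polynomial F) q :=
    (Polynomial.irreducible_X.coprime_iff_not_dvd.2 hq0).pow_left
  obtain ⟨a, b, hab⟩ := hcop
  have hc : ∀ (s : Polynomial F) (S : Module.End F V), Commute S T → Commute S (Polynomial.aeval T s) := by
    intro s S hS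
    induction s using Polynomial.induction_on' with
    | add p q hp hq => rw [map_add]; exact hp.add_right hq
    | monomial n c =>
      rw [Polynomial.aeval_monomial]
      exact (Algebra.commute_algebraMap_right c S).mul_right (hS.pow_right n)
  refine ⟨Polynomial.aeval T (b * q), Polynomial.aeval T (a * Polynomial.X ^ k), k, ?_, ?_,
    fun S hS => hc _ S hS, fun S hS => hc _ S hS⟩
  · have : Polynomial.aeval T (b * q + a * Polynomial.X ^ k * Polynomial.X) = 1 := by
      rw [show b * q + a * Polynomial.X ^ k * Polynomial.X = a * Polynomial.X ^ (k + 1) + b * q by ring,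
        hab, map_one]
    simpa using this
  · have : Polynomial.aeval T (Polynomial.X ^ k * (b * q)) = 0 := by
      rw [show Polynomial.X ^ k * (b * q) = b * (Polynomial.X ^ k * q) by ring, ← hq, map_mul,
        minpoly.aeval, mul_zero]
    simpa using this

theorem app_comm {a b : Module.End F V} (h : a * b = b * a) (x : V) : a (b x) = b (a x) :=
  congrArg (fun T : Module.End F V => T x) h

theorem app_add {a b c : Module.End F V} (h : a * b - b * a = c) (x : V) : a (b x) = b (a x) + c x := by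
  have := congrArg (fun T : Module.End F V => T x) h
  simp only [LinearMap.sub_apply, Module.End.mul_apply] at this
  rw [← this]; abel

theorem app_anti {a b : Module.End F V} (h : a * b + b * a = 0) (x : V) : a (b x) = -b (a x) := by
  have := congrArg (fun T : Module.End F V => T x) h
  simp only [LinearMap.add_apply, Module.End.mul_apply, LinearMap.zero_apply] at this
  exact eq_neg_of_add_eq_zero_left this

/-- The final step: an `sl₂`-structure on a subquotient. -/
theorem lefschetz_subquotient [CharZero F] [FiniteDimensional F V] {h e f : Module.End F V}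
    (t : IsSl2 h e f) (Z E : Submodule F V) (eZ : ∀ x ∈ Z, e x ∈ Z) (hZ : ∀ x ∈ Z, h x ∈ Z)
    (eE : ∀ x ∈ E, e x ∈ E) (hE : ∀ x ∈ E, h x ∈ E) (fZ : ∀ x ∈ Z, f x ∈ Z ⊔ E)
    (fE : ∀ x ∈ Z, x ∈ E → f x ∈ E) (r : ℕ) :
    (∀ x ∈ Z, h x = -(r : F) • x → (e ^ r) x ∈ E → x ∈ E) ∧
    (∀ y ∈ Z, h y = (r : F) • y → ∃ x ∈ Z, y - (e ^ r) x ∈ E) := by
  let T : Submodule F (V ⧸ E) := Z.map E.mkQ
  let q : Z →ₗ[F] T := (E.mkQ.domRestrict Z).codRestrict T (fun x => ⟨x, x.2, rfl⟩)
  have hq : LinearMap.range q = ⊤ := by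
    rw [eq_top_iff]; rintro ⟨_, x, hx, rfl⟩ _; exact ⟨⟨x, hx⟩, rfl⟩
  obtain ⟨s, hs⟩ := q.exists_rightInverse_of_surjective hq
  have hqs : ∀ x : Z, ((s (q x) : Z) : V) - x ∈ E := by
    intro x
    have : q (s (q x)) = q x := congrArg (fun φ : T →ₗ[F] T => φ (q x)) hs
    exact (Submodule.Quotient.eq E).1 (congrArg Subtype.val this)
  have lift : ∀ S : Module.End F V, (∀ x ∈ Z, S x ∈ Z ⊔ E) → (∀ x ∈ Z, x ∈ E → S x ∈ E) →
      ∃ S' : Module.End F T, ∀ x : Z, ((S' (q x) : T) : V ⧸ E) = E.mkQ (S x) := by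
    intro S h1 h2
    have hT : ∀ x : Z, (E.mkQ ∘ₗ S ∘ₗ Z.subtype) x ∈ T := by
      intro x
      obtain ⟨z, hz, w, hw, hzw⟩ := Submodule.mem_sup.1 (h1 x x.2)
      refine ⟨z, hz, ?_⟩
      simp only [LinearMap.comp_apply, Submodule.subtype_apply, ← hzw, map_add]
      rw [show E.mkQ w = 0 from (Submodule.Quotient.mk_eq_zero E).2 hw, add_zero]
    refine ⟨(LinearMap.codRestrict T (E.mkQ ∘ₗ S ∘ₗ Z.subtype) hT) ∘ₗ s, fun x => ?_⟩
    show E.mkQ (S (s (q x))) = E.mkQ (S x)
    refine (Submodule.Quotient.eq E).2 ?_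
    rw [← map_sub]
    exact h2 _ (Z.sub_mem (s (q x)).2 x.2) (hqs x)
  obtain ⟨e', he'⟩ := lift e (fun x hx => Submodule.mem_sup_left (eZ x hx)) (fun x _ hx => eE x hx)
  obtain ⟨h', hh'⟩ := lift h (fun x hx => Submodule.mem_sup_left (hZ x hx)) (fun x _ hx => hE x hx)
  obtain ⟨f', hf'⟩ := lift f fZ fE
  have e1 : ∀ x : Z, e' (q x) = q ⟨e x, eZ x x.2⟩ := fun x => Subtype.ext (he' x)
  have h1 : ∀ x : Z, h' (q x) = q ⟨h x, hZ x x.2⟩ := fun x => Subtype.ext (hh' x)
  have f1 : ∀ x : Z, ∃ z : Z, f' (q x) = q z ∧ f x - z ∈ E := by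
    intro x
    obtain ⟨z, hz⟩ : ∃ z, q z = f' (q x) := (LinearMap.range_eq_top.1 hq) _
    refine ⟨z, hz.symm, (Submodule.Quotient.eq E).1 ?_⟩
    have := hf' x
    rw [← hz] at this
    exact this.symm
  have hext : ∀ A B : Module.End F T, (∀ x : Z, ((A (q x) : T) : V ⧸ E) = (B (q x) : T)) → A = B := by
    intro A B hAB
    refine LinearMap.ext fun y => ?_
    obtain ⟨x, rfl⟩ := (LinearMap.range_eq_top.1 hq) y
    exact Subtype.ext (hAB x)
  have mk_congr : ∀ (S : Module.End F V), (∀ x ∈ E, S x ∈ E) → ∀ a b : V, a - b ∈ E →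
      E.mkQ (S a) = E.mkQ (S b) := fun S hS a b hab =>
    (Submodule.Quotient.eq E).2 (by rw [← map_sub]; exact hS _ hab)
  have t' : IsSl2 h' e' f' := by
    refine ⟨hext _ _ fun x => ?_, hext _ _ fun x => ?_, hext _ _ fun x => ?_⟩
    · obtain ⟨z, hz, hz'⟩ := f1 x
      rw [LinearMap.sub_apply, Module.End.mul_apply, Module.End.mul_apply, Submodule.coe_sub, hz, he', e1,
        hf', hh', ← mk_congr e eE _ _ hz', ← map_sub, t.ef]
      simp
    · rw [LinearMap.sub_apply, Module.End.mul_apply, Module.End.mul_apply, Submodule.coe_sub, two_mul,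
        LinearMap.add_apply, Submodule.coe_add, he', e1, hh', h1, he', ← map_sub, ← map_add, t.he, two_smul]
      simp
    · obtain ⟨z, hz, hz'⟩ := f1 x
      rw [LinearMap.sub_apply, Module.End.mul_apply, Module.End.mul_apply, Submodule.coe_sub, two_mul,
        LinearMap.neg_apply, LinearMap.add_apply, Submodule.coe_neg, Submodule.coe_add, hf', hz, hh', h1,
        hf', ← mk_congr h hE _ _ hz', ← map_sub, ← map_add, ← map_neg, t.hf, two_smul]
      congr 1
      simp only
      abel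
  have epow : ∀ (k : ℕ) (x : Z), (e' ^ k) (q x) = q ⟨(e ^ k) x, IsSl2.pow_mem eZ k x x.2⟩ := by
    intro k x
    induction k with
    | zero => simp
    | succ k ih =>
      rw [pow_succ', Module.End.mul_apply, ih, e1]
      congr 1
      exact Subtype.ext (by simp [pow_succ'])
  constructor
  · intro x hx hw hE'
    have := t'.inj r (q ⟨x, hx⟩) (by
      rw [h1, ← map_smul]; congr 1; exact Subtype.ext hw) (by
      rw [epow]; exact Subtype.ext ((Submodule.Quotient.mk_eq_zero E).2 hE'))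
    exact (Submodule.Quotient.mk_eq_zero E).1 (congrArg Subtype.val this)
  · intro y hy hw
    obtain ⟨u, -, -, hu⟩ := t'.surj ⊤ (fun _ _ => trivial) (fun _ _ => trivial) r (q ⟨y, hy⟩) trivial (by
      rw [h1, ← map_smul]; congr 1; exact Subtype.ext hw)
    obtain ⟨x, rfl⟩ := (LinearMap.range_eq_top.1 hq) u
    rw [epow] at hu
    exact ⟨x, x.2, (Submodule.Quotient.eq E).1 (congrArg Subtype.val hu).symm⟩

theorem mkDD [CharZero F] [FiniteDimensional F V] {h₂ L L' d d' : Module.End F V} (t₂ : IsSl2 h₂ L L')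
    (dd : d * d = 0) (dL : L * d = d * L) (d₂ : h₂ * d - d * h₂ = d) (hd' : L' * d - d * L' = d')
    (HL : CohLefschetz d h₂ L) : DD h₂ L L' d d' := by
  have hLL := t₂.1
  have r1 : L * d' - d' * L = d := by
    have : L * d' - d' * L = (h₂ * d - d * h₂) + L' * (L * d - d * L) - (L * d - d * L) * L' := by
      rw [← hd', ← hLL]; noncomm_ring
    rw [this, d₂, dL]; simp
  have r2 : L' * d' = d' * L' := by rw [← hd']; exact t₂.ad_sq d d₂ dL
  have r3 : h₂ * d' - d' * h₂ = -d' := by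
    have : h₂ * d' - d' * h₂ = (h₂ * L' - L' * h₂) * d - d * (h₂ * L' - L' * h₂) + L' * (h₂ * d - d * h₂) -
        (h₂ * d - d * h₂) * L' := by rw [← hd']; noncomm_ring
    rw [this, t₂.2.2, d₂, ← hd']; noncomm_ring
  have r4 : d' * d + d * d' = 0 := by
    have : d' * d + d * d' = L' * (d * d) - (d * d) * L' := by rw [← hd']; noncomm_ring
    rw [this, dd]; simp
  have r5 : d' * d' = 0 := by
    apply two_torsion
    have : d' * d' + d' * d' = L' * (d' * d + d * d') - (d' * d + d * d') * L' - (L' * d' - d' * L') * d -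
        d * (L' * d' - d' * L') + (d' * (d' - (L' * d - d * L')) + (d' - (L' * d - d * L')) * d') := by
      noncomm_ring
    rw [this, r4, r2, hd']; simp
  exact
    { t := t₂, de := app_comm dL.symm, hd := app_add d₂,
      dd := fun x => congrArg (fun T : Module.End F V => T x) dd,
      fd := app_add hd', ed' := app_add r1, fd' := app_comm r2,
      hd' := fun x => by rw [app_add r3, sub_eq_add_neg]; rfl
      dd' := app_anti r4,
      d'd' := fun x => congrArg (fun T : Module.End F V => T x) r5, HL := HL }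

theorem core [CharZero F] [FiniteDimensional F V] (h₁ N N' h₂ L L' d d' δ Δ : Module.End F V)
    (t₁ : IsSl2 h₁ N N') (t₂ : IsSl2 h₂ L L')
    (c₁ : N * L = L * N) (c₂ : N * L' = L' * N) (c₃ : N' * L = L * N') (c₄ : N' * L' = L' * N')
    (dd : d * d = 0) (dN : N * d = d * N) (dL : L * d = d * L)
    (d₁ : h₁ * d - d * h₁ = d) (d₂ : h₂ * d - d * h₂ = d)
    (hd' : L' * d - d * L' = d') (hδ : N' * d' - d' * N' = δ) (hΔ : d * δ + δ * d = Δ)
    (ss₀ : ∀ x, L' x = 0 → Δ (Δ x) = 0 → N (Δ x) = 0) (HL : CohLefschetz d h₂ L) :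
    CohLefschetz d h₁ N := by
  obtain ⟨d21, h21⟩ : ∃ d21, N' * d - d * N' = d21 := ⟨_, rfl⟩
  have hLL := t₂.1
  have hNN := t₁.1
  have r1 : L * d' - d' * L = d := by
    have : L * d' - d' * L = (h₂ * d - d * h₂) + L' * (L * d - d * L) - (L * d - d * L) * L' := by
      rw [← hd', ← hLL]; noncomm_ring
    rw [this, d₂, dL]; simp
  have r2 : L' * d' = d' * L' := by rw [← hd']; exact t₂.ad_sq d d₂ dL
  have r3 : h₂ * d' - d' * h₂ = -d' := by
    have : h₂ * d' - d' * h₂ = (h₂ * L' - L' * h₂) * d - d * (h₂ * L' - L' * h₂) + L' * (h₂ * d - d * h₂) -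
        (h₂ * d - d * h₂) * L' := by rw [← hd']; noncomm_ring
    rw [this, t₂.2.2, d₂, ← hd']; noncomm_ring
  have r4 : d' * d + d * d' = 0 := by
    have : d' * d + d * d' = L' * (d * d) - (d * d) * L' := by rw [← hd']; noncomm_ring
    rw [this, dd]; simp
  have r5 : d' * d' = 0 := by
    apply two_torsion
    have : d' * d' + d' * d' = L' * (d' * d + d * d') - (d' * d + d * d') * L' - (L' * d' - d' * L') * d -
        d * (L' * d' - d' * L') + (d' * (d' - (L' * d - d * L')) + (d' - (L' * d - d * L')) * d') := by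
      noncomm_ring
    rw [this, r4, r2, hd']; simp
  have r6 : N * d' = d' * N := by
    have : N * d' - d' * N = (N * L' - L' * N) * d - d * (N * L' - L' * N) + L' * (N * d - d * N) -
        (N * d - d * N) * L' := by rw [← hd']; noncomm_ring
    rw [c₂, dN] at this
    simpa [sub_eq_zero] using this
  have c₅ : h₁ * L' = L' * h₁ := by
    have : h₁ * L' - L' * h₁ = N * (N' * L' - L' * N') + (N * L' - L' * N) * N' - N' * (N * L' - L' * N) -
        (N' * L' - L' * N') * N := by rw [← hNN]; noncomm_ring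
    rw [c₂, c₄] at this
    simpa [sub_eq_zero] using this
  have r7 : h₁ * d' - d' * h₁ = d' := by
    have : h₁ * d' - d' * h₁ = (h₁ * L' - L' * h₁) * d - d * (h₁ * L' - L' * h₁) + L' * (h₁ * d - d * h₁) -
        (h₁ * d - d * h₁) * L' := by rw [← hd']; noncomm_ring
    rw [this, c₅, d₁, ← hd']; noncomm_ring
  have r8 : N * δ - δ * N = d' := by
    have : N * δ - δ * N = (h₁ * d' - d' * h₁) + N' * (N * d' - d' * N) - (N * d' - d' * N) * N' := by
      rw [← hδ, ← hNN]; noncomm_ring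
    rw [this, r7, r6]; simp
  have r9 : N' * δ = δ * N' := by rw [← hδ]; exact t₁.ad_sq d' r7 r6
  have r10 : N' * d21 = d21 * N' := by rw [← h21]; exact t₁.ad_sq d d₁ dN
  have r11 : d21 * d + d * d21 = 0 := by
    have : d21 * d + d * d21 = N' * (d * d) - (d * d) * N' := by rw [← h21]; noncomm_ring
    rw [this, dd]; simp
  have r12 : d21 * d' + d' * d21 = -Δ := by
    have : d21 * d' + d' * d21 + Δ = N' * (d' * d + d * d') - (d' * d + d * d') * N' := by
      rw [← hΔ, ← hδ, ← h21]; noncomm_ring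
    rw [r4] at this
    simpa [eq_neg_iff_add_eq_zero] using this
  have r13 : d21 * d21 = 0 := by
    apply two_torsion
    have : d21 * d21 + d21 * d21 = N' * (d21 * d + d * d21) - (d21 * d + d * d21) * N' -
        (N' * d21 - d21 * N') * d - d * (N' * d21 - d21 * N') +
        (d21 * (d21 - (N' * d - d * N')) + (d21 - (N' * d - d * N')) * d21) := by noncomm_ring
    rw [this, r11, r10, h21]; simp
  have r14 : L' * d21 - d21 * L' = δ := by
    have : L' * d21 - d21 * L' - δ = -((N' * L' - L' * N') * d) + d * (N' * L' - L' * N') := by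
      rw [← hδ, ← hd', ← h21]; noncomm_ring
    rw [c₄] at this
    simpa [sub_eq_zero] using this
  have r15 : δ * d21 + d21 * δ = 0 := by
    have : δ * d21 + d21 * δ = L' * (d21 * d21) - (d21 * d21) * L' := by rw [← r14]; noncomm_ring
    rw [this, r13]; simp
  have k1 : Commute d Δ := by
    have : d * Δ - Δ * d = (d * d) * δ - δ * (d * d) := by rw [← hΔ]; noncomm_ring
    rw [dd] at this
    exact sub_eq_zero.1 (by simpa using this)
  have k2 : Commute d' Δ := by
    have : d' * -Δ - -Δ * d' = (d' * d') * d21 - d21 * (d' * d') := by rw [← r12]; noncomm_ring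
    rw [r5, zero_mul, mul_zero, sub_zero, mul_neg, neg_mul, sub_neg_eq_add, neg_add_eq_zero] at this
    exact this
  have k3 : Commute N Δ := by
    have : N * Δ - Δ * N = (N * d - d * N) * δ + d * (N * δ - δ * N) + (N * δ - δ * N) * d +
        δ * (N * d - d * N) := by rw [← hΔ]; noncomm_ring
    rw [dN, r8, sub_self, zero_mul, mul_zero, zero_add, add_zero, add_comm, r4] at this
    exact sub_eq_zero.1 this
  have k4 : Commute N' Δ := by
    have : N' * Δ - Δ * N' = (N' * d - d * N') * δ + d * (N' * δ - δ * N') + (N' * δ - δ * N') * d +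
        δ * (N' * d - d * N') := by rw [← hΔ]; noncomm_ring
    rw [h21, r9, sub_self, zero_mul, mul_zero, add_zero, add_zero, add_comm, r15] at this
    exact sub_eq_zero.1 this
  have k5 : Commute h₁ Δ := by
    rw [← hNN]; exact (k3.mul_left k4).sub_left (k4.mul_left k3)
  have kδ : Commute δ Δ := by
    rw [← hδ]; exact (k4.mul_left k2).sub_left (k2.mul_left k4)
  have r16 : L * δ - δ * L = d21 := by
    have : L * δ - δ * L = N' * (L * d' - d' * L) - (L * d' - d' * L) * N' - (N' * L - L * N') * d' +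
        d' * (N' * L - L * N') := by rw [← hδ]; noncomm_ring
    rw [this, r1, c₃, h21]; simp
  have r17 : L' * δ = δ * L' := by
    have : L' * δ - δ * L' = N' * (L' * d' - d' * L') - (L' * d' - d' * L') * N' - (N' * L' - L' * N') * d' +
        d' * (N' * L' - L' * N') := by rw [← hδ]; noncomm_ring
    rw [r2, c₄] at this
    simpa [sub_eq_zero] using this
  have r18 : δ * d' + d' * δ = 0 := by
    have : δ * d' + d' * δ = N' * (d' * d') - (d' * d') * N' := by rw [← hδ]; noncomm_ring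
    rw [this, r5]; simp
  have k6 : Commute L Δ := by
    have : L * Δ - Δ * L = (L * d - d * L) * δ + d * (L * δ - δ * L) + (L * δ - δ * L) * d +
        δ * (L * d - d * L) := by rw [← hΔ]; noncomm_ring
    rw [dL, r16, sub_self, zero_mul, mul_zero, zero_add, add_zero, add_comm, r11] at this
    exact sub_eq_zero.1 this
  have k7 : Commute L' Δ := by
    have : L' * Δ - Δ * L' = (L' * d - d * L') * δ + d * (L' * δ - δ * L') + (L' * δ - δ * L') * d +
        δ * (L' * d - d * L') := by rw [← hΔ]; noncomm_ring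
    rw [hd', r17, sub_self, zero_mul, mul_zero, add_zero, add_zero, add_comm, r18] at this
    exact sub_eq_zero.1 this
  have ss : ∀ x, Δ (Δ x) = 0 → N (Δ x) = 0 := by
    have st : ∀ S : Module.End F V, Commute S Δ → ∀ x ∈ LinearMap.ker (Δ * Δ), S x ∈ LinearMap.ker (Δ * Δ) := by
      intro S hS x hx
      have h1 : Δ (Δ x) = 0 := hx
      show Δ (Δ (S x)) = 0
      rw [← app_comm hS.eq, ← app_comm hS.eq, h1, map_zero]
    have k8 : Commute h₂ Δ := by
      rw [← hLL]; exact (k6.mul_left k7).sub_left (k7.mul_left k6)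
    intro x hx
    refine wt_induction h₂ t₂.diag (LinearMap.ker (Δ * Δ)) (LinearMap.ker (N * Δ)) (st _ k8)
      (fun n x hxM hx => t₂.gen _ _ (st _ k6) (st _ k7) ?_ (fun _ y hy _ h0 => ss₀ y h0 hy) n x hxM hx) hx
    intro y hy
    have h1 : N (Δ y) = 0 := hy
    show N (Δ (L y)) = 0
    rw [← app_comm k6.eq, app_comm c₁, h1, map_zero]
  have D : DD h₂ L L' d d' :=
    { t := t₂, de := app_comm dL.symm, hd := app_add d₂,
      dd := fun x => congrArg (fun T : Module.End F V => T x) dd,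
      fd := app_add hd', ed' := app_add r1, fd' := app_comm r2,
      hd' := fun x => by rw [app_add r3, sub_eq_add_neg]; rfl
      dd' := app_anti r4,
      d'd' := fun x => congrArg (fun T : Module.End F V => T x) r5, HL := HL }
  -- invariance of `Δ x` on the generalised kernel
  have inv : ∀ (P : V → Prop), (∀ x, P x → P (N' x)) → ∀ S : Module.End F V, Commute N' S →
      (∀ x, P x → N (S x) = 0) → ∀ x, P x → h₁ (S x) = 0 ∧ N' (S x) = 0 := by
    intro P hP S hS hN
    have h1 : ∀ x, P x → h₁ (S x) = 0 := by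
      intro x hx
      have := t₁.ef (S x)
      rw [hN x hx, map_zero, zero_add, app_comm hS.eq, hN _ (hP x hx)] at this
      exact this.symm
    intro x hx
    refine ⟨h1 x hx, ?_⟩
    have := t₁.hf (S x)
    rw [h1 x hx, map_zero, zero_sub, app_comm hS.eq, h1 _ (hP x hx), eq_comm, neg_eq_zero] at this
    rw [app_comm hS.eq]
    simpa using this
  have gen : ∀ k : ℕ, ∀ x, (Δ ^ (k + 2)) x = 0 → N (Δ x) = 0 := by
    intro k
    induction k with
    | zero => intro x hx; exact ss x (by simpa [pow_succ] using hx)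
    | succ k ih =>
      intro x hx
      have hP : ∀ (j : ℕ) x, (Δ ^ j) x = 0 → (Δ ^ j) (N' x) = 0 := fun j x hx => by
        rw [← app_comm (k4.pow_right j).eq, hx, map_zero]
      have hss : ∀ y, (Δ ^ (k + 3)) y = 0 → N ((Δ ^ (k + 2)) y) = 0 := by
        intro y hy
        have h1 : (Δ ^ (k + 2)) y = Δ ((Δ ^ (k + 1)) y) := by rw [pow_succ' Δ (k + 1)]; rfl
        rw [h1]
        apply ss
        rw [← h1, ← Module.End.mul_apply, ← pow_succ']; exact hy
      have hA := inv (fun y => (Δ ^ (k + 3)) y = 0) (hP _) (Δ ^ (k + 2)) (k4.pow_right _) hss x hx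
      have hB := inv (fun y => (Δ ^ (k + 2)) y = 0) (hP _) Δ k4 ih
      have hN1 : (Δ ^ (k + 2)) (N x) = 0 := by rw [← app_comm (k3.pow_right _).eq]; exact hss x hx
      have hN2 : (Δ ^ (k + 2)) (N' x) = 0 := by rw [← app_comm (k4.pow_right _).eq]; exact hA.2
      have b1 := hB _ hN1
      have b2 := ih _ hN2
      rw [← app_comm k3.eq] at b1
      rw [← app_comm k4.eq] at b2
      have b3 : h₁ (Δ x) = 0 := by
        have := t₁.ef (Δ x)
        rw [b2, b1.2, zero_add] at this
        exact this.symm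
      have := t₁.he (Δ x)
      rw [b1.1, b3, map_zero, zero_add, eq_comm] at this
      simpa using this
  obtain ⟨p, g, k, hpg, hk, cp, cg⟩ := exists_fitting Δ
  have hpk : ∀ x, (Δ ^ (k + 2)) (p x) = 0 := by
    intro x
    have : (Δ ^ k) (p x) = 0 := congrArg (fun T : Module.End F V => T x) hk
    rw [show k + 2 = 2 + k by ring, pow_add, Module.End.mul_apply, this, map_zero]
  have pid : ∀ x, p x + g (Δ x) = x := fun x => congrArg (fun T : Module.End F V => T x) hpg
  have I1 : ∀ x, N (Δ (p x)) = 0 := fun x => gen k _ (hpk x)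
  have I23 : ∀ x, h₁ (Δ (p x)) = 0 ∧ N' (Δ (p x)) = 0 := fun x =>
    inv (fun y => (Δ ^ (k + 2)) y = 0) (fun x hx => by
      rw [← app_comm (k4.pow_right _).eq, hx, map_zero]) Δ k4 (gen k) _ (hpk x)
  have I4 : ∀ x, Δ (p (d x)) = 0 := by
    intro x
    have h1 := app_add d₁ (Δ (p x))
    rw [(I23 x).1, map_zero, zero_add, app_comm k1.eq, app_comm (cp d k1).eq, (I23 _).1] at h1
    exact h1.symm
  have I5 : ∀ x, Δ (p (d' x)) = 0 := by
    intro x
    have h1 := app_add r7 (Δ (p x))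
    rw [(I23 x).1, map_zero, zero_add, app_comm k2.eq, app_comm (cp d' k2).eq, (I23 _).1] at h1
    exact h1.symm
  have hΔx : ∀ x, Δ x = d (δ x) + δ (d x) := fun x =>
    (congrArg (fun T : Module.End F V => T x) hΔ).symm
  have pfix : ∀ x, Δ x = 0 → p x = x := fun x hx => by simpa [hx] using pid x
  have I6 : ∀ x, Δ (Δ (p x)) = 0 := by
    intro x
    have h1 : d (Δ (p x)) = 0 := by rw [app_comm k1.eq, app_comm (cp d k1).eq, I4]
    rw [hΔx (Δ (p x)), h1, map_zero, add_zero, app_comm kδ.eq, app_comm (cp δ kδ).eq, app_comm k1.eq,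
      app_comm (cp d k1).eq, I4]
  let Z : Submodule F V := LinearMap.ker d ⊓ LinearMap.ker d' ⊓ LinearMap.ker Δ
  let E₀ : Submodule F V := LinearMap.range d ⊔ LinearMap.range d'
  let E : Submodule F V := E₀ ⊔ LinearMap.range (Δ * p)
  have memE₀ : ∀ a b, d a + d' b ∈ E₀ := fun a b => Submodule.add_mem_sup ⟨_, rfl⟩ ⟨_, rfl⟩
  have elimE : ∀ x ∈ E, ∃ a b u, x = d a + d' b + Δ (p u) := by
    intro x hx
    obtain ⟨w, hw, _, ⟨u, rfl⟩, rfl⟩ := Submodule.mem_sup.1 hx
    obtain ⟨_, ⟨a, rfl⟩, _, ⟨b, rfl⟩, rfl⟩ := Submodule.mem_sup.1 hw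
    exact ⟨a, b, u, rfl⟩
  have eZ : ∀ x ∈ Z, N x ∈ Z := by
    rintro x ⟨⟨h1, h2⟩, h3⟩
    refine ⟨⟨?_, ?_⟩, ?_⟩
    · show d (N x) = 0
      rw [← app_comm dN, show d x = 0 from h1, map_zero]
    · show d' (N x) = 0
      rw [← app_comm r6, show d' x = 0 from h2, map_zero]
    · show Δ (N x) = 0
      rw [← app_comm k3.eq, show Δ x = 0 from h3, map_zero]
  have hZ : ∀ x ∈ Z, h₁ x ∈ Z := by
    rintro x ⟨⟨h1, h2⟩, h3⟩
    refine ⟨⟨?_, ?_⟩, ?_⟩
    · have := app_add d₁ x
      rw [show d x = 0 from h1, map_zero, add_zero] at this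
      exact this.symm
    · have := app_add r7 x
      rw [show d' x = 0 from h2, map_zero, add_zero] at this
      exact this.symm
    · show Δ (h₁ x) = 0
      rw [← app_comm k5.eq, show Δ x = 0 from h3, map_zero]
  have hE₀ : ∀ x ∈ E, h₁ x ∈ E₀ := by
    intro x hx
    obtain ⟨a, b, u, rfl⟩ := elimE x hx
    rw [map_add, map_add, (I23 u).1, app_add d₁, app_add r7, add_zero, ← map_add, ← map_add]
    exact memE₀ _ _
  have hE : ∀ x ∈ E, h₁ x ∈ E := fun x hx => Submodule.mem_sup_left (hE₀ x hx)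
  have eE : ∀ x ∈ E, N x ∈ E := by
    intro x hx
    obtain ⟨a, b, u, rfl⟩ := elimE x hx
    rw [map_add, map_add, I1, app_comm dN, app_comm r6, add_zero]
    exact Submodule.mem_sup_left (memE₀ _ _)
  have fZ : ∀ x ∈ Z, N' x ∈ Z ⊔ E := by
    rintro x ⟨⟨h1, h2⟩, h3⟩
    replace h1 : d x = 0 := h1
    replace h2 : d' x = 0 := h2
    replace h3 : Δ x = 0 := h3
    have h4 : d (d' (N' x)) = 0 := by
      have h5 := app_add hδ x
      rw [h2, map_zero, eq_comm, add_eq_zero_iff_eq_neg] at h5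
      have h6 := hΔx x
      rw [h3, h1, map_zero, add_zero] at h6
      rw [h5, map_neg, ← h6, neg_zero]
    obtain ⟨z, a, b, hz1, hz2, hz⟩ := D.S3 _ h4
    have h7 : Δ (N' x) = 0 := by rw [← app_comm k4.eq, h3, map_zero]
    have h8 : N' x = p z + (d (p a) + d' (p b)) := by
      rw [← pfix _ h7, hz, map_add, map_add, app_comm (cp d k1).eq, app_comm (cp d' k2).eq, add_assoc]
    have h9 : Δ (p z) = 0 := by
      rw [h8, map_add, map_add, app_comm (cp d k1).eq, app_comm (cp d' k2).eq, I4, I5] at h7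
      simpa using h7
    rw [h8]
    refine Submodule.add_mem_sup ⟨⟨?_, ?_⟩, h9⟩ (Submodule.mem_sup_left (memE₀ _ _))
    · show d (p z) = 0
      rw [app_comm (cp d k1).eq, hz1, map_zero]
    · show d' (p z) = 0
      rw [app_comm (cp d' k2).eq, hz2, map_zero]
  have fE : ∀ x ∈ Z, x ∈ E → N' x ∈ E := by
    rintro x ⟨⟨h1, h2⟩, h3⟩ hx
    replace h1 : d x = 0 := h1
    replace h2 : d' x = 0 := h2
    replace h3 : Δ x = 0 := h3
    obtain ⟨a, b, u, hx⟩ := elimE x hx
    have h4 : d (Δ (p u)) = 0 := by rw [app_comm k1.eq, app_comm (cp d k1).eq, I4]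
    have h5 : d' (Δ (p u)) = 0 := by rw [app_comm k2.eq, app_comm (cp d' k2).eq, I5]
    have h6 : x - Δ (p u) = d a + d' b := by rw [hx]; abel
    obtain ⟨w, hw⟩ := D.S2 (x := x - Δ (p u)) ⟨⟨by
      show d _ = 0
      rw [map_sub, h1, h4, sub_zero], by
      show d' _ = 0
      rw [map_sub, h2, h5, sub_zero]⟩, by rw [h6]; exact memE₀ _ _⟩
    have h7 : x - Δ (p u) = d (d' (p w)) := by
      rw [← pfix (x - Δ (p u)) (by rw [map_sub, h3, I6, sub_zero]), ← hw, Module.End.mul_apply,
        ← app_comm (cp d k1).eq, ← app_comm (cp d' k2).eq]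
    have h8 : N' x = N' (d (d' (p w))) := by rw [← h7, map_sub, (I23 u).2, sub_zero]
    have h9 : d21 (d' (p w)) = -d' (d21 (p w)) - Δ (p w) := by
      have := congrArg (fun T : Module.End F V => T (p w)) r12
      simp only [LinearMap.add_apply, Module.End.mul_apply, LinearMap.neg_apply] at this
      rw [sub_eq_add_neg, ← this]; abel
    rw [h8, app_add h21, h9]
    have : d (N' (d' (p w))) + (-d' (d21 (p w)) - Δ (p w)) =
        (d (N' (d' (p w))) + d' (-d21 (p w))) + (Δ * p) (-w) := by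
      simp only [map_neg, Module.End.mul_apply]; abel
    rw [this]
    exact Submodule.add_mem_sup (memE₀ _ _) ⟨_, rfl⟩
  obtain ⟨pr, p1, p2, p3, p4⟩ := exists_proj' h₁ t₁.diag
  have prd : ∀ n x, pr (n + 1) (d x) = d (pr n x) := p3 d 1 (fun x => by rw [app_add d₁]; simp)
  -- homogeneous representatives in `Z`
  have rep : ∀ n : ℤ, n ≠ 0 → ∀ x, h₁ x = (n : F) • x → d x = 0 →
      ∃ z ∈ Z, h₁ z = (n : F) • z ∧ x - z ∈ LinearMap.range d := by
    intro n hn x hx hdx
    obtain ⟨z, hz, _, ⟨a, rfl⟩, hza⟩ := Submodule.mem_sup.1 (D.S1 hdx)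
    have hz' : pr n z ∈ LinearMap.ker d ⊓ LinearMap.ker d' := by
      refine p4 _ ?_ n z hz
      rintro y ⟨h1, h2⟩
      constructor
      · have := app_add d₁ y
        rw [show d y = 0 from h1, map_zero, add_zero] at this
        exact this.symm
      · have := app_add r7 y
        rw [show d' y = 0 from h2, map_zero, add_zero] at this
        exact this.symm
    have h1 : d (pr n z) = 0 := hz'.1
    have h2 : d' (pr n z) = 0 := hz'.2
    have h3 : h₁ (p (pr n z)) = (n : F) • p (pr n z) := by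
      rw [app_comm (cp h₁ k5).eq, p1, map_smul]
    refine ⟨p (pr n z), ⟨⟨?_, ?_⟩, ?_⟩, h3, ?_⟩
    · show d _ = 0
      rw [app_comm (cp d k1).eq, h1, map_zero]
    · show d' _ = 0
      rw [app_comm (cp d' k2).eq, h2, map_zero]
    · have h4 := (I23 (pr n z)).1
      rw [app_comm k5.eq, h3, map_smul, smul_eq_zero] at h4
      exact h4.resolve_left (by exact_mod_cast hn)
    · have h5 : x = pr n z + d (pr (n - 1) a) := by
        rw [← prd, sub_add_cancel, ← map_add, hza, p2 _ _ hx]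
      have h6 : pr n z = p (pr n z) + d (g (δ (pr n z))) := by
        rw [app_comm (cg d k1).eq]
        conv_lhs => rw [← pid (pr n z), hΔx, h1, map_zero, add_zero]
      refine ⟨pr (n - 1) a + g (δ (pr n z)), ?_⟩
      rw [map_add, eq_sub_iff_add_eq, h5]
      conv_rhs => rw [h6]
      abel
  have bdry : ∀ n : ℤ, n ≠ 0 → ∀ z ∈ Z, h₁ z = (n : F) • z → z ∈ E → z ∈ LinearMap.range d := by
    intro n hn z hz hw hzE
    have h1 := hE₀ z hzE
    rw [hw] at h1
    have hn' : (n : F) ≠ 0 := by exact_mod_cast hn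
    have h2 : z ∈ E₀ := by simpa [smul_smul, inv_mul_cancel₀ hn'] using E₀.smul_mem (n : F)⁻¹ h1
    obtain ⟨w, hw⟩ := D.S2 (x := z) ⟨hz.1, h2⟩
    exact ⟨d' w, hw⟩
  have rdE : LinearMap.range d ≤ E := fun x hx => Submodule.mem_sup_left (Submodule.mem_sup_left hx)
  have Npow : ∀ (r : ℕ), ∀ x ∈ LinearMap.range d, (N ^ r) x ∈ LinearMap.range d := by
    rintro r _ ⟨a, rfl⟩
    exact ⟨(N ^ r) a, comm_pow (app_comm dN.symm) r a⟩
  intro r
  rcases Nat.eq_zero_or_pos r with rfl | hr
  · exact ⟨fun x _ _ hx => by simpa using hx, fun y hy hdy => ⟨y, by simpa using hy, hdy, by simp⟩⟩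
  obtain ⟨A, B⟩ := lefschetz_subquotient t₁ Z E eZ hZ eE hE fZ fE r
  constructor
  · intro x hx hdx hN
    obtain ⟨z, hz, hw, hxz⟩ := rep (-(r : ℤ)) (by omega) x (by simpa using hx) hdx
    have h1 : (N ^ r) z ∈ LinearMap.range d := by
      have := sub_mem hN (Npow r _ hxz)
      rwa [map_sub, sub_sub_cancel] at this
    have h2 := bdry _ (by omega) z hz hw (A z hz (by simpa using hw) (rdE h1))
    simpa using add_mem hxz h2
  · intro y hy hdy
    obtain ⟨z, hz, hw, hyz⟩ := rep (r : ℤ) (by omega) y (by simpa using hy) hdy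
    obtain ⟨x, hx, hzx⟩ := B z hz (by simpa using hw)
    have h1 := p4 E hE (-(r : ℤ) + 2 * r) _ hzx
    have h2 := p3 (N ^ r) (2 * r) (fun x => by rw [t₁.he_pow]; push_cast; rfl) (-(r : ℤ)) x
    rw [map_sub, h2, show -(r : ℤ) + 2 * r = r by ring, p2 _ _ hw] at h1
    have hx' := p4 Z hZ (-(r : ℤ)) x hx
    have hxw := p1 (-(r : ℤ)) x
    refine ⟨pr (-(r : ℤ)) x, by simpa using hxw, hx'.1.1, ?_⟩
    have h3 := bdry r (by omega) _ (Z.sub_mem hz (IsSl2.pow_mem eZ r _ hx')) (by
      rw [map_sub, hw, t₁.wt_e_pow hxw, smul_sub]; push_cast; congr 2; ring) h1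
    simpa using add_mem hyz h3

end Pool.Agent.MP_855f4c_ag

/-! The first page of the Rapoport-Zink (Steenbrink) weight spectral sequence, built from the
cohomology `B p` of the strata `Y^(p+1)` and restriction and Gysin maps. -/

namespace Pool.Agent.MP_855f4c_ag

open Module

variable {F : Type} [Field F] {B : ℕ → ModuleCat.{0} F}

/-- Components indexed by natural numbers, extended by zero. -/
def ex (x : E1 B) (p k : ℕ) : B p := if h : k < p + 1 then x p ⟨k, h⟩ else 0

theorem ex_ext {x y : E1 B} (h : ∀ p k, k ≤ p → ex x p k = ex y p k) : x = y := by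
  funext p k
  have := h p k (by omega)
  simpa [ex, k.2] using this

theorem ex_of_lt (x : E1 B) {p k : ℕ} (h : p < k) : ex x p k = 0 := by
  simp [ex]; omega

@[simp] theorem ex_add (x y : E1 B) (p k : ℕ) : ex (x + y) p k = ex x p k + ex y p k := by
  unfold ex; split_ifs <;> simp

@[simp] theorem ex_sub (x y : E1 B) (p k : ℕ) : ex (x - y) p k = ex x p k - ex y p k := by
  unfold ex; split_ifs <;> simp

@[simp] theorem ex_neg (x : E1 B) (p k : ℕ) : ex (-x) p k = -ex x p k := by
  unfold ex; split_ifs <;> simp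

@[simp] theorem ex_zero (p k : ℕ) : ex (0 : E1 B) p k = 0 := by
  unfold ex; split_ifs <;> simp

@[simp] theorem ex_diag (T : ∀ p, Module.End F (B p)) (x : E1 B) (p k : ℕ) :
    ex (diag T x) p k = T p (ex x p k) := by
  unfold ex; split_ifs <;> simp [diag]

@[simp] theorem ex_col (x : E1 B) (p k : ℕ) :
    ex (col B x) p k = (2 * (k : F) - p) • ex x p k := by
  unfold ex; split_ifs <;> simp [col]

@[simp] theorem ex_mon_zero (x : E1 B) (p : ℕ) : ex (mon B x) p 0 = 0 := by
  simp [ex, mon]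

theorem ex_mon_succ (x : E1 B) {p k : ℕ} (h : k < p) : ex (mon B x) p (k + 1) = ex x p k := by
  have h1 : k + 1 < p + 1 := by omega
  have h2 : k < p + 1 := by omega
  simp only [ex, dif_pos h1, dif_pos h2]
  exact Fin.cases_succ (motive := fun _ => B p) (zero := 0) (succ := fun j => x p j.castSucc) ⟨k, h⟩

theorem ex_dif_zero (ρ : ∀ p, B p →ₗ[F] B (p + 1)) (τ : ∀ p, B (p + 1) →ₗ[F] B p) (x : E1 B) (p : ℕ) :
    ex (dif ρ τ x) p 0 = τ p (ex x (p + 1) 0) := by
  rcases p with _ | q <;> simp [ex, dif]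

theorem ex_dif_succ (ρ : ∀ p, B p →ₗ[F] B (p + 1)) (τ : ∀ p, B (p + 1) →ₗ[F] B p) (x : E1 B) {p k : ℕ}
    (h : k ≤ p) : ex (dif ρ τ x) (p + 1) (k + 1) = ρ p (ex x p k) + τ (p + 1) (ex x (p + 2) (k + 1)) := by
  have h1 : k + 1 < p + 1 + 1 := by omega
  have h2 : k < p + 1 := by omega
  have h3 : k + 1 < p + 2 + 1 := by omega
  simp only [ex, dif_pos h1, dif_pos h2, dif_pos h3]
  show Fin.cases (motive := fun _ => B (p + 1)) 0 (fun j => ρ p (x p j)) (Fin.succ ⟨k, h2⟩) + _ = _
  rw [Fin.cases_succ]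
  rfl

/-- The lowering operator of the monodromy triple. -/
def low (B : ℕ → ModuleCat.{0} F) : Module.End F (E1 B) where
  toFun x p k := ((((k : ℕ) : F) + 1) * ((p : F) - (k : ℕ))) • ex x p (k + 1)
  map_add' x y := by funext p k; simp
  map_smul' c x := by
    funext p k
    have : ex (c • x) p (k + 1) = c • ex x p (k + 1) := by unfold ex; split_ifs <;> simp
    simp [this, smul_comm c]

theorem ex_low (x : E1 B) (p k : ℕ) :
    ex (low B x) p k = (((k : F) + 1) * ((p : F) - k)) • ex x p (k + 1) := by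
  by_cases h : k < p + 1
  · simp [ex, low, h]
  · rw [ex_of_lt _ (by omega), ex_of_lt _ (by omega), smul_zero]

theorem end_ext {S T : Module.End F (E1 B)} (h : ∀ x p k, k ≤ p → ex (S x) p k = ex (T x) p k) : S = T :=
  LinearMap.ext fun x => ex_ext (h x)

theorem sl2_mon : IsSl2 (col B) (mon B) (low B) := by
  refine ⟨end_ext fun x p k hk => ?_, end_ext fun x p k hk => ?_, end_ext fun x p k hk => ?_⟩
  · simp only [LinearMap.sub_apply, Module.End.mul_apply, ex_sub, ex_col, ex_low]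
    rcases hk.lt_or_eq with hk | rfl
    · rw [ex_mon_succ _ hk]
      rcases k with _ | k
      · simp
      · rw [ex_mon_succ _ (by omega), ex_low]; push_cast; module
    · rcases k with _ | k
      · simp
      · rw [ex_mon_succ _ (by omega), ex_low]; push_cast; module
  · simp only [LinearMap.sub_apply, Module.End.mul_apply, ex_sub, ex_col, two_mul (mon B),
      LinearMap.add_apply, ex_add]
    rcases k with _ | k
    · simp
    · rw [ex_mon_succ _ (by omega), ex_mon_succ _ (by omega), ex_col]; push_cast; module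
  · simp only [LinearMap.sub_apply, Module.End.mul_apply, ex_sub, ex_col, two_mul (low B),
      LinearMap.add_apply, ex_add, LinearMap.neg_apply, ex_neg, ex_low]
    push_cast; module

theorem sl2_diag {h L Λ : ∀ p, Module.End F (B p)} (t : ∀ p, IsSl2 (h p) (L p) (Λ p)) :
    IsSl2 (diag h) (diag L) (diag Λ) := by
  refine ⟨end_ext fun x p k _ => ?_, end_ext fun x p k _ => ?_, end_ext fun x p k _ => ?_⟩
  · simp [(t p).ef]
  · simp [(t p).he, two_mul, two_smul]
  · simp [(t p).hf, two_mul, two_smul]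

theorem mon_diag (T : ∀ p, Module.End F (B p)) : mon B * diag T = diag T * mon B := by
  refine end_ext fun x p k hk => ?_
  rcases k with _ | k
  · simp
  · simp [ex_mon_succ _ (show k < p by omega)]

theorem low_diag (T : ∀ p, Module.End F (B p)) : low B * diag T = diag T * low B :=
  end_ext fun x p k _ => by simp [ex_low]

variable (ρ : ∀ p, B p →ₗ[F] B (p + 1)) (τ : ∀ p, B (p + 1) →ₗ[F] B p)

theorem diag_dif (T : ∀ p, Module.End F (B p)) :
    diag T * dif ρ τ - dif ρ τ * diag T =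
      dif (fun p => T (p + 1) ∘ₗ ρ p - ρ p ∘ₗ T p) (fun p => T p ∘ₗ τ p - τ p ∘ₗ T (p + 1)) := by
  refine end_ext fun x p k hk => ?_
  rcases k with _ | k
  · simp [ex_dif_zero]
  · obtain ⟨q, rfl⟩ : ∃ q, p = q + 1 := ⟨p - 1, by omega⟩
    simp [ex_dif_succ _ _ _ (show k ≤ q by omega)]; abel

theorem dif_zero : dif (fun p => (0 : B p →ₗ[F] B (p + 1))) (fun _ => 0) = 0 := by
  refine end_ext fun x p k hk => ?_
  rcases k with _ | k
  · simp [ex_dif_zero]
  · obtain ⟨q, rfl⟩ : ∃ q, p = q + 1 := ⟨p - 1, by omega⟩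
    simp [ex_dif_succ _ _ _ (show k ≤ q by omega)]

theorem mon_dif : mon B * dif ρ τ = dif ρ τ * mon B := by
  refine end_ext fun x p k hk => ?_
  simp only [Module.End.mul_apply]
  rcases k with _ | k
  · simp [ex_dif_zero]
  · obtain ⟨q, rfl⟩ : ∃ q, p = q + 1 := ⟨p - 1, by omega⟩
    rw [ex_mon_succ _ (by omega), ex_dif_succ _ _ _ (by omega), ex_mon_succ _ (by omega)]
    rcases k with _ | k
    · simp [ex_dif_zero]
    · rw [ex_mon_succ _ (by omega), ex_dif_succ _ _ _ (by omega)]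

theorem col_dif : col B * dif ρ τ - dif ρ τ * col B = dif ρ τ := by
  refine end_ext fun x p k hk => ?_
  simp only [LinearMap.sub_apply, Module.End.mul_apply, ex_sub, ex_col]
  rcases k with _ | k
  · simp only [ex_dif_zero, ex_col, map_smul]; push_cast; module
  · obtain ⟨q, rfl⟩ : ∃ q, p = q + 1 := ⟨p - 1, by omega⟩
    simp only [ex_dif_succ _ _ _ (show k ≤ q by omega), ex_col, map_smul]; push_cast; module

theorem dif_dif (ρρ : ∀ p x, ρ (p + 1) (ρ p x) = 0) (ττ : ∀ p x, τ p (τ (p + 1) x) = 0)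
    (ρτ : ∀ p x, τ (p + 1) (ρ (p + 1) x) + ρ p (τ p x) = 0) : dif ρ τ * dif ρ τ = 0 := by
  refine end_ext fun x p k hk => ?_
  simp only [Module.End.mul_apply, LinearMap.zero_apply, ex_zero]
  rcases k with _ | k
  · simp [ex_dif_zero, ττ]
  · obtain ⟨q, rfl⟩ : ∃ q, p = q + 1 := ⟨p - 1, by omega⟩
    rw [ex_dif_succ _ _ _ (by omega), ex_dif_succ _ _ _ (by omega), map_add, ττ, add_zero]
    rcases k with _ | k
    · rw [ex_dif_zero]; exact (add_comm _ _).trans (ρτ _ _)
    · obtain ⟨s, rfl⟩ : ∃ s, q = s + 1 := ⟨q - 1, by omega⟩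
      rw [ex_dif_succ _ _ _ (by omega), map_add, ρρ, zero_add]
      exact (add_comm _ _).trans (ρτ _ _)

theorem ex_codif_zero (x : E1 B) :
    ex ((low B * dif ρ τ - dif ρ τ * low B) x) 0 0 = -τ 0 (ex x 1 1) := by
  simp [ex_low, ex_dif_zero]

theorem ex_codif_succ (x : E1 B) {p k : ℕ} (hk : k ≤ p + 1) :
    ex ((low B * dif ρ τ - dif ρ τ * low B) x) (p + 1) k =
      ((p : F) + 1 - k) • ρ p (ex x p k) - ((k : F) + 1) • τ (p + 1) (ex x (p + 2) (k + 1)) := by
  simp only [LinearMap.sub_apply, Module.End.mul_apply, ex_sub, ex_low]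
  rcases hk.lt_or_eq with hk | rfl
  · rw [ex_dif_succ _ _ _ (by omega)]
    rcases k with _ | k
    · simp only [ex_dif_zero, ex_low, map_smul]; push_cast; module
    · simp only [ex_dif_succ _ _ _ (show k ≤ p by omega), ex_low, map_smul]; push_cast; module
  · simp only [ex_dif_succ _ _ _ (le_refl p), ex_low, map_smul]; push_cast; module

theorem rz_main [CharZero F] [∀ p, FiniteDimensional F (B p)] (n : ℕ) (hn : ∀ p, n < p → ∀ x : B p, x = 0)
    (h L Λ : ∀ p, Module.End F (B p)) (t : ∀ p, IsSl2 (h p) (L p) (Λ p))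
    (ρL : ∀ p, L (p + 1) ∘ₗ ρ p = ρ p ∘ₗ L p) (τL : ∀ p, L p ∘ₗ τ p = τ p ∘ₗ L (p + 1))
    (ρh : ∀ p, h (p + 1) ∘ₗ ρ p - ρ p ∘ₗ h p = ρ p) (τh : ∀ p, h p ∘ₗ τ p - τ p ∘ₗ h (p + 1) = τ p)
    (ρρ : ∀ p, ρ (p + 1) ∘ₗ ρ p = 0) (ττ : ∀ p, τ p ∘ₗ τ (p + 1) = 0)
    (ρτ : ∀ p, τ (p + 1) ∘ₗ ρ (p + 1) + ρ p ∘ₗ τ p = 0)
    (ss : ∀ p x, Λ (p + 1) x = 0 → lap Λ ρ τ p (lap Λ ρ τ p x) = 0 → lap Λ ρ τ p x = 0)
    (HL : CohLefschetz (dif ρ τ) (diag h) (diag L)) :
    CohLefschetz (dif ρ τ) (col B) (mon B) := by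
  have : FiniteDimensional F (E1 B) := by
    let φ : E1 B →ₗ[F] ((p : Fin (n + 1)) → Fin (p + 1) → B p) :=
      { toFun := fun x p => x p, map_add' := fun _ _ => rfl, map_smul' := fun _ _ => rfl }
    refine Module.Finite.of_injective φ ?_
    rw [← LinearMap.ker_eq_bot, Submodule.eq_bot_iff]
    intro x hx
    funext p k
    by_cases hp : n < p
    · exact hn p hp _
    · exact congrFun (congrFun (LinearMap.mem_ker.1 hx) ⟨p, by omega⟩) k
  have ρρ' : ∀ p x, ρ (p + 1) (ρ p x) = 0 := fun p x => LinearMap.congr_fun (ρρ p) x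
  have ττ' : ∀ p x, τ p (τ (p + 1) x) = 0 := fun p x => LinearMap.congr_fun (ττ p) x
  have ρτ' : ∀ p x, τ (p + 1) (ρ (p + 1) x) = -ρ p (τ p x) := fun p x =>
    eq_neg_of_add_eq_zero_left (LinearMap.congr_fun (ρτ p) x)
  set ρ' : ∀ p, B p →ₗ[F] B (p + 1) := fun p => Λ (p + 1) ∘ₗ ρ p - ρ p ∘ₗ Λ p with hρ'
  set τ' : ∀ p, B (p + 1) →ₗ[F] B p := fun p => Λ p ∘ₗ τ p - τ p ∘ₗ Λ (p + 1) with hτ'
  set δ := low B * dif ρ' τ' - dif ρ' τ' * low B with hδ
  set Δ := dif ρ τ * δ + δ * dif ρ τ with hΔ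
  have hlap : ∀ x p k, k ≤ p + 1 → ex (Δ x) (p + 1) k = lap Λ ρ τ p (ex x (p + 1) k) := by
    intro x p k hk
    rw [hΔ, LinearMap.add_apply, Module.End.mul_apply, Module.End.mul_apply, ex_add, hδ,
      ex_codif_succ _ _ _ hk, ex_dif_succ _ _ _ hk]
    rcases k with _ | k
    · rw [ex_dif_zero, ex_codif_succ _ _ _ (by omega), ex_dif_zero]
      simp only [lap, hρ', hτ', LinearMap.sub_apply, LinearMap.add_apply, LinearMap.smul_apply,
        LinearMap.comp_apply, map_sub, map_add, map_smul, ττ', ρτ', map_zero, map_neg]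
      push_cast; module
    · rw [ex_dif_succ _ _ _ (by omega), ex_codif_succ _ _ _ (p := p + 1) (by omega)]
      rcases p with _ | p
      · obtain rfl : k = 0 := by omega
        rw [ex_codif_zero]
        simp only [lap, hρ', hτ', LinearMap.sub_apply, LinearMap.add_apply, LinearMap.smul_apply,
          LinearMap.comp_apply, map_sub, map_add, map_smul, ττ', ρτ', map_zero, map_neg]
        push_cast; module
      · rw [ex_codif_succ _ _ _ (by omega)]
        rcases (show k ≤ p + 1 by omega).lt_or_eq with hk' | rfl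
        · rw [ex_dif_succ _ _ _ (by omega)]
          simp only [lap, hρ', hτ', LinearMap.sub_apply, LinearMap.add_apply, LinearMap.smul_apply,
            LinearMap.comp_apply, map_sub, map_add, map_smul, ττ', ρτ', ρρ', map_zero, map_neg]
          push_cast; module
        · simp only [lap, hρ', hτ', LinearMap.sub_apply, LinearMap.add_apply, LinearMap.smul_apply,
            LinearMap.comp_apply, map_sub, map_add, map_smul, ττ', ρτ', ρρ', map_zero, map_neg]
          push_cast; module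
  refine core (col B) (mon B) (low B) (diag h) (diag L) (diag Λ) (dif ρ τ) (dif ρ' τ') δ Δ
    sl2_mon (sl2_diag t) (mon_diag L) (mon_diag Λ) (low_diag L) (low_diag Λ)
    (dif_dif ρ τ ρρ' ττ' fun p x => by rw [ρτ', neg_add_cancel]) (mon_dif ρ τ) ?_ (col_dif ρ τ) ?_
    (diag_dif ρ τ Λ) rfl rfl ?_ HL
  · rw [← sub_eq_zero, diag_dif]
    simp only [ρL, τL, sub_self]
    exact dif_zero
  · rw [diag_dif]
    simp only [ρh, τh]
  · intro x hx h2
    refine ex_ext fun p k hk => ?_
    rcases k with _ | k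
    · simp
    · obtain ⟨q, rfl⟩ : ∃ q, p = q + 1 := ⟨p - 1, by omega⟩
      rw [ex_mon_succ _ (by omega), ex_zero, hlap _ _ _ (by omega)]
      refine ss q _ ?_ ?_
      · rw [← ex_diag, hx, ex_zero]
      · rw [← hlap _ _ _ (by omega), ← hlap _ _ _ (by omega), h2, ex_zero]

/-- The element of the first page with a single component. -/
def single (p : ℕ) (k : ℕ) (y : B p) : E1 B :=
  Function.update (0 : E1 B) p (fun j => if (j : ℕ) = k then y else 0)

theorem ex_single_self {p k : ℕ} (hk : k ≤ p) (y : B p) : ex (single p k y) p k = y := by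
  simp [ex, single, show k < p + 1 by omega]

theorem ex_single_ne {p k : ℕ} (y : B p) {q j : ℕ} (h : q ≠ p ∨ j ≠ k) : ex (single p k y) q j = 0 := by
  unfold ex single
  split_ifs with hj
  · by_cases hq : q = p
    · subst hq
      simp [h.resolve_left (fun h => h rfl)]
    · rw [Function.update_of_ne hq]; rfl
  · rfl

theorem rz_double [CharZero F] [∀ p, FiniteDimensional F (B p)] (hn : ∀ p, 1 < p → ∀ x : B p, x = 0)
    (h L Λ : ∀ p, Module.End F (B p)) (t : ∀ p, IsSl2 (h p) (L p) (Λ p))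
    (ρL : ∀ p, L (p + 1) ∘ₗ ρ p = ρ p ∘ₗ L p) (τL : ∀ p, L p ∘ₗ τ p = τ p ∘ₗ L (p + 1))
    (ρh : ∀ p, h (p + 1) ∘ₗ ρ p - ρ p ∘ₗ h p = ρ p) (τh : ∀ p, h p ∘ₗ τ p - τ p ∘ₗ h (p + 1) = τ p)
    (ρτ : ρ 0 ∘ₗ τ 0 = 0) (HL : CohLefschetz (dif ρ τ) (diag h) (diag L))
    (WM : CohLefschetz (dif ρ τ) (col B) (mon B)) (x : B 1)
    (hx : lap Λ ρ τ 0 (lap Λ ρ τ 0 x) = 0) : lap Λ ρ τ 0 x = 0 := by
  have : FiniteDimensional F (E1 B) := by
    let φ : E1 B →ₗ[F] ((p : Fin (1 + 1)) → Fin (p + 1) → B p) :=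
      { toFun := fun x p => x p, map_add' := fun _ _ => rfl, map_smul' := fun _ _ => rfl }
    refine Module.Finite.of_injective φ ?_
    rw [← LinearMap.ker_eq_bot, Submodule.eq_bot_iff]
    intro x hx
    funext p k
    by_cases hp : 1 < p
    · exact hn p hp _
    · exact congrFun (congrFun (LinearMap.mem_ker.1 hx) ⟨p, by omega⟩) k
  have ρτ0 : ∀ y, ρ 0 (τ 0 y) = 0 := fun y => LinearMap.congr_fun ρτ y
  have z2 : ∀ p (y : B (p + 2)), y = 0 := fun p y => hn _ (by omega) y
  set ρ' : ∀ p, B p →ₗ[F] B (p + 1) := fun p => Λ (p + 1) ∘ₗ ρ p - ρ p ∘ₗ Λ p with hρ'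
  set τ' : ∀ p, B (p + 1) →ₗ[F] B p := fun p => Λ p ∘ₗ τ p - τ p ∘ₗ Λ (p + 1) with hτ'
  have hlap : ∀ y, lap Λ ρ τ 0 y = -ρ 0 (Λ 0 (τ 0 y)) := by
    intro y
    simp only [lap, LinearMap.sub_apply, LinearMap.add_apply, LinearMap.smul_apply, LinearMap.comp_apply]
    rw [z2 0 (ρ (0 + 1) y), z2 0 (ρ (0 + 1) (Λ (0 + 1) y)), ρτ0]
    simp
  have ext2 : ∀ u v : E1 B, ex u 0 0 = ex v 0 0 → ex u 1 0 = ex v 1 0 → ex u 1 1 = ex v 1 1 → u = v := by
    intro u v h0 h1 h2
    refine ex_ext fun p k hk => ?_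
    rcases p with _ | _ | p
    · obtain rfl : k = 0 := by omega
      exact h0
    · rcases k with _ | _ | k
      · exact h1
      · exact h2
      · omega
    · rw [z2 p (ex u _ _), z2 p (ex v _ _)]
  have d10 : ∀ (α : ∀ p, B p →ₗ[F] B (p + 1)) (β : ∀ p, B (p + 1) →ₗ[F] B p) (u : E1 B),
      ex (dif α β u) 1 0 = 0 := fun α β u => by rw [ex_dif_zero, z2 0 (ex u _ _), map_zero]
  have d11 : ∀ (α : ∀ p, B p →ₗ[F] B (p + 1)) (β : ∀ p, B (p + 1) →ₗ[F] B p) (u : E1 B),
      ex (dif α β u) 1 1 = α 0 (ex u 0 0) := fun α β u => by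
    rw [ex_dif_succ _ _ _ le_rfl, z2 0 (ex u _ _), map_zero, add_zero]
  have hdd : dif ρ τ * dif ρ τ = 0 := by
    refine LinearMap.ext fun u => ext2 _ _ ?_ ?_ ?_
    · rw [Module.End.mul_apply, ex_dif_zero, d10]; simp
    · rw [Module.End.mul_apply, d10]; simp
    · rw [Module.End.mul_apply, d11, ex_dif_zero, ρτ0]; simp
  have hdL : diag L * dif ρ τ = dif ρ τ * diag L := by
    rw [← sub_eq_zero, diag_dif]
    simp only [ρL, τL, sub_self]
    exact dif_zero
  have hdh : diag h * dif ρ τ - dif ρ τ * diag h = dif ρ τ := by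
    rw [diag_dif]
    simp only [ρh, τh]
  have D := mkDD (sl2_diag t) hdd hdL hdh (diag_dif ρ τ Λ) HL
  -- `ρ Λ τ y = 0` forces `τ y = 0`
  have key : ∀ y : B 1, ρ 0 (Λ 0 (τ 0 y)) = 0 → τ 0 y = 0 := by
    intro y hy
    have h1 : dif ρ' τ' (dif ρ τ (single 1 0 y)) = 0 := by
      refine ext2 _ _ ?_ ?_ ?_
      · rw [ex_dif_zero, d10]; simp
      · rw [d10]; simp
      · rw [d11, ex_dif_zero, ex_single_self (by omega)]
        simp [hρ', ρτ0, hy]
    obtain ⟨w, hw⟩ := D.S2 (x := dif ρ τ (single 1 0 y))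
      ⟨⟨D.dd _, h1⟩, Submodule.mem_sup_left ⟨_, rfl⟩⟩
    have h2 := congrArg (fun u => ex u 0 0) hw
    simp only [Module.End.mul_apply, ex_dif_zero] at h2
    rw [ex_single_self (by omega), z2 0 (ex w _ _), map_zero, map_zero] at h2
    exact h2.symm
  set y := lap Λ ρ τ 0 x with hy
  have h3 : τ 0 y = 0 := key y (by rw [hlap, neg_eq_zero] at hx; exact hx)
  obtain ⟨u, hu⟩ := (WM 1).1 (single 1 0 y) (by
      refine ext2 _ _ ?_ ?_ ?_
      · simp [ex_single_ne]
      · simp
      · simp [ex_single_ne]) (by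
      refine ext2 _ _ ?_ ?_ ?_
      · rw [ex_dif_zero, ex_single_self (by omega), h3]; simp
      · rw [d10]; simp
      · rw [d11, ex_single_ne _ (by omega)]; simp) ⟨single 0 0 (-Λ 0 (τ 0 x)), by
      refine ext2 _ _ ?_ ?_ ?_
      · rw [ex_dif_zero, ex_single_ne _ (by omega)]; simp
      · rw [d10]; simp
      · rw [d11, ex_single_self le_rfl, pow_one, ex_mon_succ _ (by omega), ex_single_self (by omega), hy,
          hlap, map_neg]⟩
  have h4 := congrArg (fun u => ex u 1 0) hu
  simp only [d10] at h4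
  rw [ex_single_self (by omega)] at h4
  exact h4.symm

theorem rz_double_iff [CharZero F] [∀ p, FiniteDimensional F (B p)] (hn : ∀ p, 1 < p → ∀ x : B p, x = 0)
    (h L Λ : ∀ p, Module.End F (B p)) (t : ∀ p, IsSl2 (h p) (L p) (Λ p))
    (ρL : ∀ p, L (p + 1) ∘ₗ ρ p = ρ p ∘ₗ L p) (τL : ∀ p, L p ∘ₗ τ p = τ p ∘ₗ L (p + 1))
    (ρh : ∀ p, h (p + 1) ∘ₗ ρ p - ρ p ∘ₗ h p = ρ p) (τh : ∀ p, h p ∘ₗ τ p - τ p ∘ₗ h (p + 1) = τ p)
    (ρτ : ρ 0 ∘ₗ τ 0 = 0) (HL : CohLefschetz (dif ρ τ) (diag h) (diag L)) :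
    CohLefschetz (dif ρ τ) (col B) (mon B) ↔
      ∀ x : B 1, ρ 0 (Λ 0 (τ 0 (ρ 0 (Λ 0 (τ 0 x))))) = 0 → ρ 0 (Λ 0 (τ 0 x)) = 0 := by
  have ρτ0 : ∀ y, ρ 0 (τ 0 y) = 0 := fun y => LinearMap.congr_fun ρτ y
  have z2 : ∀ p (y : B (p + 2)), y = 0 := fun p y => hn _ (by omega) y
  have hlap : ∀ y, lap Λ ρ τ 0 y = -ρ 0 (Λ 0 (τ 0 y)) := by
    intro y
    simp only [lap, LinearMap.sub_apply, LinearMap.add_apply, LinearMap.smul_apply, LinearMap.comp_apply]
    rw [z2 0 (ρ (0 + 1) y), z2 0 (ρ (0 + 1) (Λ (0 + 1) y)), ρτ0]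
    simp
  constructor
  · intro WM x hx
    have := rz_double ρ τ hn h L Λ t ρL τL ρh τh ρτ HL WM x (by simp [hlap, hx])
    simpa [hlap] using this
  · intro ss
    refine rz_main ρ τ 1 hn h L Λ t ρL τL ρh τh (fun p => LinearMap.ext fun x => z2 _ _)
      (fun p => LinearMap.ext fun x => by rw [z2 p x, map_zero, map_zero]) (fun p => LinearMap.ext fun x => ?_)
      (fun p x _ hx => ?_) HL
    · rcases p with _ | p
      · rw [LinearMap.add_apply, LinearMap.comp_apply, LinearMap.comp_apply, ρτ0, z2 0 (ρ (0 + 1) x)]; simp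
      · exact z2 _ _
    · rcases p with _ | p
      · rw [hlap, neg_eq_zero]
        exact ss x (by simpa [hlap] using hx)
      · exact z2 _ _

theorem cohLef_iff {V : Type} [AddCommGroup V] [Module F V] (d h e : Module.End F V) :
    CohLef F d h e ↔ CohLefschetz d h e := by
  refine forall_congr' fun r => and_congr (forall_congr' fun x => ?_) (forall_congr' fun y => ?_)
  · simp only [LinearMap.mem_range, Module.End.pow_apply, eq_comm (a := x), eq_comm (a := e^[r] x)]
  · refine imp_congr_right fun _ => imp_congr_right fun _ => exists_congr fun x => ?_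
    simp only [LinearMap.mem_range, Module.End.pow_apply]
    constructor
    · rintro ⟨z, h1, h2, h3⟩
      exact ⟨h1, h2, z, by rw [h3]; abel⟩
    · rintro ⟨h1, h2, z, h3⟩
      exact ⟨z, h1, h2, by rw [h3]; abel⟩

theorem coe_dif : ⇑(dif ρ τ) = difF ρ τ := by
  funext x p k
  rcases p with _ | q
  · exact zero_add _
  · rfl

theorem lap_apply (Λ : ∀ p, Module.End F (B p)) (p : ℕ) (x : B (p + 1)) :
    lap Λ ρ τ p x = lapF Λ ρ τ p x := rfl

theorem cohLef_L (h L : ∀ p, Module.End F (B p)) :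
    CohLef F (difF ρ τ) (diagF h) (diagF L) ↔ CohLefschetz (dif ρ τ) (diag h) (diag L) := by
  rw [← cohLef_iff, coe_dif]; rfl

theorem cohLef_N : CohLef F (difF ρ τ) colF monF ↔ CohLefschetz (dif ρ τ) (col B) (mon B) := by
  rw [← cohLef_iff, coe_dif]; rfl

end Pool.Agent.MP_855f4c_ag
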