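import Pool.Agent.MP_855f4c_ag.Defs2
import Pool.Agent.MP_855f4c_ag.Main

/-! From the second page to the abutment: uniqueness of the monodromy filtration and purity. -/

namespace Pool.Agent.MP_855f4c_ag

open Polynomial

section

variable {F : Type} [Field F] [CharZero F] {H : Type} [AddCommGroup H] [Module F H]

omit [CharZero F] in
theorem shift_pow {N : Module.End F H} {M : ℤ → Submodule F H} (hN : ∀ a, ∀ x ∈ M a, N x ∈ M (a - 2))
    (k : ℕ) (a : ℤ) (x : H) (hx : x ∈ M a) : (N ^ k) x ∈ M (a - 2 * k) := by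
  induction k with
  | zero => simpa using hx
  | succ k ih =>
    have := hN _ _ ih
    rw [pow_succ', Module.End.mul_apply]
    convert this using 2
    push_cast; ring

omit [CharZero F] in
theorem monfil_le {N : Module.End F H} {M W : ℤ → Submodule F H} (hM : IsMonFil N M) (hW : IsMonFil N W)
    (a : ℤ) : M a ≤ W a := by
  obtain ⟨mM, ⟨b, hb⟩, -, nM, lM⟩ := hM
  obtain ⟨mW, -, ⟨t, ht⟩, nW, lW⟩ := hW
  have key : ∀ s r : ℕ, b.natAbs + t.natAbs ≤ r + s → M r ≤ W r ∧ M (-r - 1) ≤ W (-r - 1) := by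
    intro s
    induction s with
    | zero =>
      intro r hr
      constructor
      · exact le_top.trans (ht ▸ mW (by omega))
      · exact (mM (show -(r : ℤ) - 1 ≤ b by omega)).trans (hb ▸ bot_le)
    | succ s ih =>
      intro r hr
      obtain ⟨h1, h2⟩ := ih (r + 1) (by omega)
      constructor
      · intro x hx
        have h3 := (lW (r + 1)).1 x (h1 (mM (by push_cast; omega) hx)) (h2 (by
          have := shift_pow nM (r + 1) r x hx
          convert this using 2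
          push_cast; ring))
        convert h3 using 2
        push_cast; ring
      · intro y hy
        obtain ⟨x, hx, hxy⟩ := (lM (r + 1)).2 y (by convert hy using 2; push_cast; ring)
        have h3 : (N ^ (r + 1)) x ∈ W (-r - 1) := by
          have := shift_pow nW (r + 1) _ x (h1 hx)
          convert this using 2
          push_cast; ring
        have h4 : y - (N ^ (r + 1)) x ∈ W (-r - 1) := mW (by push_cast; omega) (h2 hxy)
        simpa using add_mem h4 h3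
  rcases le_or_gt 0 a with ha | ha
  · obtain ⟨r, rfl⟩ := Int.eq_ofNat_of_zero_le ha
    exact (key (b.natAbs + t.natAbs) r (by omega)).1
  · obtain ⟨r, hr⟩ := Int.eq_ofNat_of_zero_le (show 0 ≤ -a - 1 by omega)
    have := (key (b.natAbs + t.natAbs) r (by omega)).2
    rwa [show -(r : ℤ) - 1 = a by omega] at this

variable {E : Type} [AddCommGroup E] [Module F E]

omit [CharZero F] in
theorem abuts_cong {d h c φ' N' : Module.End F E} {m : F} {φ N : Module.End F H}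
    {W : ℤ → Submodule F H} {π : ℤ → H →ₗ[F] E} (ab : Abuts d h c φ' N' m φ N W π)
    (Nd : ∀ x, N' (d x) = d (N' x)) (k : ℕ) (a : ℤ) :
    ∀ x ∈ W a, ∃ z, π (a - 2 * k) ((N ^ k) x) = (N' ^ k) (π a x) + d z := by
  obtain ⟨-, -, -, ab⟩ := ab
  have nW : ∀ a, ∀ x ∈ W a, N x ∈ W (a - 2) := fun a x hx => ((ab a).1 x hx).2.2.2.2.2.2.1
  intro x hx
  induction k with
  | zero => exact ⟨0, by simp⟩
  | succ k ih =>
    obtain ⟨z, hz⟩ := ih
    obtain ⟨w, hw⟩ := ((ab _).1 _ (shift_pow nW k a x hx)).2.2.2.2.2.2.2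
    refine ⟨N' z + w, ?_⟩
    rw [show a - 2 * ((k + 1 : ℕ) : ℤ) = a - 2 * k - 2 by push_cast; ring, pow_succ', pow_succ',
      Module.End.mul_apply, Module.End.mul_apply, hw, hz, map_add, map_add, Nd, add_assoc]

theorem abuts_monfil [FiniteDimensional F E] {d h c φ' N' : Module.End F E} {m : ℤ} {φ N : Module.End F H}
    {W : ℤ → Submodule F H} {π : ℤ → H →ₗ[F] E} (ab : Abuts d h c φ' N' (m : F) φ N W π)
    (hd : ⨆ n : ℤ, h.eigenspace (n : F) = ⊤) (Nd : ∀ x, N' (d x) = d (N' x))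
    (dh : ∀ x, h (d x) = d (h x) + d x) (ch : ∀ x, h (c x) = c (h x)) (Nh : ∀ x, h (N' x) = N' (h x))
    (WM : CohLefschetz d c N') : IsMonFil N W := by
  have cong := abuts_cong ab Nd
  obtain ⟨mW, hb, ht, ab⟩ := ab
  have nW : ∀ a, ∀ x ∈ W a, N x ∈ W (a - 2) := fun a x hx => ((ab a).1 x hx).2.2.2.2.2.2.1
  refine ⟨mW, hb, ht, nW, fun r => ⟨fun x hx hN => ?_, fun y hy => ?_⟩⟩
  · obtain ⟨h1, -, h3, h4, -⟩ := (ab r).1 x hx
    obtain ⟨z, hz⟩ := cong r r x hx
    have hx' := shift_pow nW r r x hx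
    rw [show (r : ℤ) - 2 * r = -r by ring] at hz hx'
    obtain ⟨w, hw⟩ := ((ab _).1 _ hx').2.2.2.1.1 hN
    obtain ⟨u, hu⟩ := (WM r).1 (π r x) (by simpa using h3) h1 ⟨w - z, by rw [map_sub, ← hw, hz]; abel⟩
    exact h4.2 ⟨u, hu.symm⟩
  · obtain ⟨h1, h2, h3, -⟩ := (ab _).1 y hy
    obtain ⟨x', hx1, hx2, u, hu⟩ := (WM r).2 (π (-r) y) (by simpa using h3) h1
    obtain ⟨pr, p1, p2, p3, -⟩ := exists_proj' h hd
    have q1 : ∀ n x, pr (n + 1) (d x) = d (pr n x) := p3 d 1 (fun x => by rw [dh]; simp)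
    have q2 : ∀ n x, pr n (c x) = c (pr n x) := fun n x => by
      simpa using p3 c 0 (fun x => by rw [ch]; simp) n x
    have q3 : ∀ n x, pr n ((N' ^ r) x) = (N' ^ r) (pr n x) := fun n x => by
      simpa using p3 (N' ^ r) 0 (fun x => by rw [comm_pow Nh]; simp) n x
    obtain ⟨x, hx, z, hz⟩ := (ab r).2 (pr m x') (by rw [← q1, hx2, map_zero]) (p1 m x')
      (by rw [← q2, hx1, map_smul]; simp)
    obtain ⟨w, hw⟩ := cong r r x hx
    have hx' := shift_pow nW r r x hx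
    rw [show (r : ℤ) - 2 * r = -r by ring] at hw hx'
    refine ⟨x, hx, ((ab _).1 _ (sub_mem hy hx')).2.2.2.1.2 ⟨pr (m - 1) u + (N' ^ r) z - w, ?_⟩⟩
    have h5 := congrArg (pr m) hu
    rw [map_sub, p2 m _ h2, q3, hz, map_add] at h5
    have h6 := q1 (m - 1) u
    rw [sub_add_cancel] at h6
    rw [map_sub, hw, map_sub, map_add, ← h6, h5, comm_pow (fun x => (Nd x).symm)]
    abel

omit [CharZero F] in
theorem abuts_pure {d h c φ' N' : Module.End F E} {m : F} {φ N : Module.End F H}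
    {W : ℤ → Submodule F H} {π : ℤ → H →ₗ[F] E} (ab : Abuts d h c φ' N' m φ N W π)
    (φd : ∀ x, φ' (d x) = d (φ' x)) (a : ℤ) (P : F[X])
    (hP : ∀ y, h y = m • y → c y = -(a : F) • y → aeval φ' P y = 0) :
    ∀ x ∈ W a, aeval φ P x ∈ W (a - 1) := by
  obtain ⟨-, -, -, ab⟩ := ab
  have key : ∀ Q : F[X], ∀ x ∈ W a, aeval φ Q x ∈ W a ∧ ∃ z, π a (aeval φ Q x) = aeval φ' Q (π a x) + d z := by
    intro Q x hx
    induction Q using Polynomial.induction_on with
    | C s => exact ⟨by simpa using (W a).smul_mem s hx, 0, by simp⟩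
    | add p q hp hq =>
      obtain ⟨h1, z, hz⟩ := hp
      obtain ⟨h2, w, hw⟩ := hq
      refine ⟨by simpa using add_mem h1 h2, z + w, ?_⟩
      simp only [map_add, LinearMap.add_apply, hz, hw]; abel
    | monomial n s ih =>
      obtain ⟨h1, z, hz⟩ := ih
      have e1 : ∀ {V : Type} [AddCommGroup V] [Module F V] (T : Module.End F V) (v : V),
          aeval T (C s * X ^ (n + 1)) v = T (aeval T (C s * X ^ n) v) := by
        intro V _ _ T v
        simp [pow_succ']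
      obtain ⟨-, -, -, -, h2, ⟨w, hw⟩, -⟩ := (ab a).1 _ h1
      refine ⟨by rw [e1]; exact h2, φ' z + w, ?_⟩
      rw [e1, e1, hw, hz, map_add, map_add, φd, add_assoc]
  intro x hx
  obtain ⟨h1, z, hz⟩ := key P x hx
  obtain ⟨-, h2, h3, -⟩ := (ab a).1 x hx
  exact ((ab a).1 _ h1).2.2.2.1.2 ⟨z, by rw [hz, hP _ h2 h3, zero_add]⟩

omit [CharZero F] in
theorem aeval_mem {φ : Module.End F H} {U : Submodule F H} (hU : ∀ x ∈ U, φ x ∈ U) (Q : F[X]) :
    ∀ x ∈ U, aeval φ Q x ∈ U := fun _ hx => aeval_apply_smul_mem_of_le_comap hx Q φ hU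

theorem weight_le {q : ℕ} (hq : 1 < q) (i : ℤ) {φ : Module.End F H} {M W : ℤ → Submodule F H}
    (mM : Monotone M) (bM : ∃ a, M a = ⊥) (mW : Monotone W) (tW : ∃ a, W a = ⊤)
    (pM : ∀ a, (∀ x ∈ M a, φ x ∈ M a) ∧ Pure q (a + i) φ (M (a - 1)) (M a))
    (pW : ∀ a, (∀ x ∈ W a, φ x ∈ W a) ∧ Pure q (a + i) φ (W (a - 1)) (W a)) (a : ℤ) : M a ≤ W a := by
  obtain ⟨b, hb⟩ := bM
  obtain ⟨t, ht⟩ := tW
  have hqR : (1 : ℝ) < q := by exact_mod_cast hq
  have kill : ∀ s : ℕ, ∃ Q : ℚ[X], (∀ z : ℂ, aeval z Q = 0 → ‖z‖ ^ 2 ≤ (q : ℝ) ^ (a + i)) ∧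
      ∀ x ∈ M a, aeval φ (Q.map (algebraMap ℚ F)) x ∈ M (a - s) := by
    intro s
    induction s with
    | zero => exact ⟨1, fun z hz => by simp at hz, fun x hx => by simpa using hx⟩
    | succ s ih =>
      obtain ⟨Q, Q1, Q2⟩ := ih
      obtain ⟨P, -, P1, P2⟩ := (pM (a - s)).2
      refine ⟨P * Q, fun z hz => ?_, fun x hx => ?_⟩
      · rw [map_mul, mul_eq_zero] at hz
        rcases hz with hz | hz
        · rw [P1 z hz]
          exact zpow_le_zpow_right₀ hqR.le (by omega)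
        · exact Q1 z hz
      · rw [Polynomial.map_mul, map_mul, Module.End.mul_apply]
        convert P2 _ (Q2 x hx) using 2
        push_cast; ring
  obtain ⟨Q, Q1, Q2⟩ := kill (a - b).natAbs
  intro x hx
  have hQ : aeval φ (Q.map (algebraMap ℚ F)) x = 0 := by
    have := mM (show a - ((a - b).natAbs : ℕ) ≤ b by omega) (Q2 x hx)
    rwa [hb] at this
  have down : ∀ s : ℕ, x ∈ W (a + s) → x ∈ W a := by
    intro s
    induction s with
    | zero => intro h; simpa using h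
    | succ s ih =>
      intro h
      apply ih
      obtain ⟨P, -, P1, P2⟩ := (pW (a + (s + 1 : ℕ))).2
      have cop : IsCoprime P Q := by
        rw [isCoprime_iff_aeval_ne_zero_of_isAlgClosed ℚ ℂ]
        intro z
        by_contra hc
        push Not at hc
        have h1 := Q1 z hc.2
        rw [P1 z hc.1, zpow_le_zpow_iff_right₀ hqR] at h1
        push_cast at h1; omega
      obtain ⟨u, v, huv⟩ := cop
      have e : x = aeval φ (u.map (algebraMap ℚ F)) (aeval φ (P.map (algebraMap ℚ F)) x) := by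
        have := congrArg (fun R : ℚ[X] => aeval φ (R.map (algebraMap ℚ F)) x) huv
        simp only [Polynomial.map_add, Polynomial.map_mul, map_add, map_mul, LinearMap.add_apply,
          Module.End.mul_apply, hQ, map_zero, add_zero, Polynomial.map_one, map_one, Module.End.one_apply] at this
        exact this.symm
      rw [e]
      refine aeval_mem (pW _).1 _ _ ?_
      convert P2 x h using 2
      push_cast; ring
  exact down (t - a).natAbs (mW (show t ≤ a + ((t - a).natAbs : ℕ) by omega) (ht ▸ trivial))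

theorem monfil_coh [FiniteDimensional F E] {d h c φ' N' : Module.End F E} (H : ℤ → ModuleCat.{0} F)
    (φ N : ∀ m, Module.End F (H m)) (W : ∀ m, ℤ → Submodule F (H m)) (π : ∀ m, ℤ → H m →ₗ[F] E)
    (ab : ∀ m : ℤ, Abuts d h c φ' N' (m : F) (φ m) (N m) (W m) (π m))
    (hd : ⨆ n : ℤ, h.eigenspace (n : F) = ⊤) (Nd : ∀ x, N' (d x) = d (N' x))
    (dh : ∀ x, h (d x) = d (h x) + d x) (ch : ∀ x, h (c x) = c (h x)) (Nh : ∀ x, h (N' x) = N' (h x))
    (mf : ∀ m, IsMonFil (N m) (W m)) : CohLefschetz d c N' := by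
  intro r
  have Nd' : ∀ x, (N' ^ r) (d x) = d ((N' ^ r) x) := fun x => (comm_pow (fun x => (Nd x).symm) r x).symm
  have hZ : ∀ x, d x = 0 → d (h x) = 0 := fun x hx => by
    have := dh x
    rw [hx, map_zero, add_zero] at this
    exact this.symm
  constructor
  · intro x h1 h2 h3
    refine wt_induction h hd (c.eigenspace (-(r : F)) ⊓ LinearMap.ker d ⊓ (LinearMap.range d).comap (N' ^ r))
      (LinearMap.range d) ?_ ?_ ⟨⟨Module.End.mem_eigenspace_iff.2 h1, h2⟩, h3⟩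
    · rintro x ⟨⟨k1, k2⟩, u, hu⟩
      refine ⟨⟨Module.End.mem_eigenspace_iff.2 ?_, hZ x k2⟩, h u + u, ?_⟩
      · rw [← ch, Module.End.mem_eigenspace_iff.1 k1, map_smul]
      · rw [map_add, ← dh, hu, comm_pow Nh]
    · rintro m x ⟨⟨k1, k2⟩, u, hu⟩ hx
      obtain ⟨y, hy, z, hz⟩ := ((ab m).2.2.2 r).2 x k2 hx (by simpa using Module.End.mem_eigenspace_iff.1 k1)
      obtain ⟨w, hw⟩ := abuts_cong (ab m) Nd r r y hy
      have hy' := shift_pow (mf m).2.2.2.1 r r y hy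
      rw [show (r : ℤ) - 2 * r = -r by ring] at hw hy'
      have h4 := ((((ab m).2.2.2 _).1 _ hy').2.2.2.1.2 ⟨u - (N' ^ r) z + w, by
        rw [hw, map_add, map_sub, hu, hz, map_add, Nd']; abel⟩)
      obtain ⟨v, hv⟩ := (((ab m).2.2.2 r).1 y hy).2.2.2.1.1 (((mf m).2.2.2.2 r).1 y hy h4)
      exact ⟨v + z, by rw [hz, hv, map_add]⟩
  · intro y h1 h2
    have : y ∈ (c.eigenspace (-(r : F)) ⊓ LinearMap.ker d).map (N' ^ r) ⊔ LinearMap.range d := by
      refine wt_induction h hd (c.eigenspace (r : F) ⊓ LinearMap.ker d) _ ?_ ?_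
        ⟨Module.End.mem_eigenspace_iff.2 h1, h2⟩
      · rintro x ⟨k1, k2⟩
        refine ⟨Module.End.mem_eigenspace_iff.2 ?_, hZ x k2⟩
        rw [← ch, Module.End.mem_eigenspace_iff.1 k1, map_smul]
      · rintro m x ⟨k1, k2⟩ hx
        obtain ⟨y, hy, z, hz⟩ := ((ab m).2.2.2 (-r)).2 x k2 hx
          (by simpa using Module.End.mem_eigenspace_iff.1 k1)
        obtain ⟨s, hs, hys⟩ := ((mf m).2.2.2.2 r).2 y hy
        obtain ⟨w, hw⟩ := abuts_cong (ab m) Nd r r s hs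
        have hs' := shift_pow (mf m).2.2.2.1 r r s hs
        rw [show (r : ℤ) - 2 * r = -r by ring] at hw hs'
        obtain ⟨v, hv⟩ := (((ab m).2.2.2 (-r)).1 _ (sub_mem hy hs')).2.2.2.1.1 hys
        obtain ⟨j1, -, j3, -⟩ := ((ab m).2.2.2 r).1 s hs
        refine Submodule.mem_sup.2 ⟨(N' ^ r) (π m r s), ⟨_, ⟨Module.End.mem_eigenspace_iff.2 (by simpa using j3), j1⟩,
          rfl⟩, d (v + w + z), ⟨_, rfl⟩, ?_⟩
        rw [map_sub, hw] at hv
        rw [hz, map_add, map_add, ← hv]; abel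
    obtain ⟨_, ⟨x, ⟨k1, k2⟩, rfl⟩, _, ⟨u, rfl⟩, hu⟩ := Submodule.mem_sup.1 this
    exact ⟨x, Module.End.mem_eigenspace_iff.1 k1, k2, u, by rw [← hu]; abel⟩

end

variable {F : Type} [Field F] [CharZero F] {B : ℕ → ModuleCat.{0} F}

omit [CharZero F] in
theorem aeval_diag (T : ∀ p, ℕ → Module.End F (B p)) (S : Module.End F (E1 B))
    (hS : ∀ x p k, S x p k = T p k (x p k)) (Q : F[X]) (x : E1 B) (p : ℕ) (k : Fin (p + 1)) :
    aeval S Q x p k = aeval (T p k) Q (x p k) := by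
  induction Q using Polynomial.induction_on with
  | C s => simp [Algebra.algebraMap_eq_smul_one]
  | add p q hp hq => simp [hp, hq]
  | monomial n s ih =>
    have e1 : ∀ {V : Type} [AddCommGroup V] [Module F V] (T : Module.End F V) (v : V),
        aeval T (C s * X ^ (n + 1)) v = T (aeval T (C s * X ^ n) v) := by
      intro V _ _ T v
      simp [pow_succ']
    rw [e1, e1, hS, ih]

/-- Frobenius on the first page as a linear map. -/
def frob (q : ℕ) (Φ : ∀ p, Module.End F (B p)) : Module.End F (E1 B) where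
  toFun := frobF q Φ
  map_add' x y := by funext p k; simp [frobF]
  map_smul' c x := by funext p k; simp [frobF, smul_comm c]

omit [CharZero F] in
theorem ex_frob (q : ℕ) (Φ : ∀ p, Module.End F (B p)) (x : E1 B) (p k : ℕ) :
    ex (frob q Φ x) p k = (q : F) ^ (p - k) • Φ p (ex x p k) := by
  unfold ex; split_ifs <;> simp [frob, frobF]

theorem col_pure (n₀ n : ℕ) (hn : ∀ p, n₀ < p → ∀ x : B p, x = 0) (h Φ : ∀ p, Module.End F (B p)) (q : ℕ)
    (hq : 0 < q) (pure : ∀ (p : ℕ) (m : ℤ), Pure q (m + n - p) (Φ p) ⊥ ((h p).eigenspace m)) (i a : ℤ) :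
    ∃ P : ℚ[X], P ≠ 0 ∧ (∀ z : ℂ, aeval z P = 0 → ‖z‖ ^ 2 = (q : ℝ) ^ (a + i)) ∧
      ∀ y : E1 B, diag h y = ((i - n : ℤ) : F) • y → col B y = -(a : F) • y →
        aeval (frob q Φ) (P.map (algebraMap ℚ F)) y = 0 := by
  have hq' : (q : ℚ) ≠ 0 := by exact_mod_cast hq.ne'
  have one : ∀ p : ℕ, ∃ P : ℚ[X], P ≠ 0 ∧ (∀ z : ℂ, aeval z P = 0 → ‖z‖ ^ 2 = (q : ℝ) ^ (a + i)) ∧
      ∀ k : ℕ, k ≤ p → 2 * (k : ℤ) - p = -a → ∀ v : B p, h p v = ((i - n : ℤ) : F) • v →
        aeval ((q : F) ^ (p - k) • Φ p) (P.map (algebraMap ℚ F)) v = 0 := by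
    intro p
    by_cases hk : ∃ k : ℕ, k ≤ p ∧ 2 * (k : ℤ) - p = -a
    · obtain ⟨k, hk1, hk2⟩ := hk
      obtain ⟨P, P0, P1, P2⟩ := pure p (i - n)
      refine ⟨P.comp (C (((q : ℚ) ^ (p - k))⁻¹) * X), ?_, ?_, ?_⟩
      · intro h0
        apply P0
        have := congrArg (fun R : ℚ[X] => R.comp (C ((q : ℚ) ^ (p - k)) * X)) h0
        simp only [comp_assoc, mul_comp, C_comp, X_comp, zero_comp] at this
        rwa [← mul_assoc, ← C_mul, inv_mul_cancel₀ (pow_ne_zero _ hq'), C_1, one_mul, comp_X] at this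
      · intro z hz
        rw [aeval_comp] at hz
        have h1 := P1 _ hz
        have hqR : (0 : ℝ) < q := by exact_mod_cast hq
        simp only [map_mul, aeval_C, aeval_X, map_inv₀, map_pow, map_natCast, norm_mul, norm_inv, norm_pow,
          Complex.norm_natCast, mul_pow, inv_pow] at h1
        rw [inv_mul_eq_iff_eq_mul₀ (by positivity)] at h1
        rw [h1, ← pow_mul, ← zpow_natCast, ← zpow_add₀ hqR.ne']
        congr 1
        push_cast [Nat.cast_sub hk1]; omega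
      · intro k' hk1' hk2' v hv
        obtain rfl : k' = k := by omega
        rw [map_comp, aeval_comp]
        have hqF : (q : F) ≠ 0 := by exact_mod_cast hq.ne'
        have : aeval ((q : F) ^ (p - k') • Φ p) ((C (((q : ℚ) ^ (p - k'))⁻¹) * X : ℚ[X]).map (algebraMap ℚ F)) =
            Φ p := by
          simp only [Polynomial.map_mul, map_C, map_X, map_mul, aeval_C, aeval_X, map_inv₀, map_pow, map_natCast,
            Algebra.algebraMap_eq_smul_one, smul_mul_assoc, one_mul, smul_smul]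
          rw [inv_mul_cancel₀ (pow_ne_zero _ hqF), one_smul]
        rw [this]
        exact P2 v (Module.End.mem_eigenspace_iff.2 hv)
    · exact ⟨1, one_ne_zero, fun z hz => by simp at hz, fun k h1 h2 => absurd ⟨k, h1, h2⟩ hk⟩
  choose P P0 P1 P2 using one
  refine ⟨∏ p ∈ Finset.range (n₀ + 1), P p, Finset.prod_ne_zero_iff.2 fun p _ => P0 p, fun z hz => ?_, ?_⟩
  · rw [map_prod, Finset.prod_eq_zero_iff] at hz
    obtain ⟨p, -, hp⟩ := hz
    exact P1 p z hp
  · intro y h1 h2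
    funext p k
    rw [aeval_diag (fun p k => (q : F) ^ (p - k) • Φ p) (frob q Φ) (fun _ _ _ => rfl)]
    show _ = (0 : B p)
    by_cases hp : n₀ < p
    · exact hn p hp _
    by_cases hk : 2 * ((k : ℕ) : ℤ) - p = -a
    · rw [← Finset.prod_erase_mul _ _ (Finset.mem_range.2 (show p < n₀ + 1 by omega)), Polynomial.map_mul,
        map_mul, Module.End.mul_apply, P2 p k (by omega) hk _ (congrFun (congrFun h1 p) k), map_zero]
    · have h3 : (2 * ((k : ℕ) : F) - (p : F)) • y p k = -(a : F) • y p k := congrFun (congrFun h2 p) k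
      have h4 : (2 * ((k : ℕ) : F) - (p : F)) - -(a : F) ≠ 0 := by
        have : (2 * ((k : ℕ) : ℤ) - p - -a : ℤ) ≠ 0 := by omega
        exact_mod_cast this
      rw [← sub_eq_zero, ← sub_smul, smul_eq_zero] at h3
      rw [h3.resolve_left h4, map_zero]

omit [CharZero F] in
theorem fin_E1 [∀ p, FiniteDimensional F (B p)] (n : ℕ) (hn : ∀ p, n < p → ∀ x : B p, x = 0) :
    FiniteDimensional F (E1 B) := by
  let φ : E1 B →ₗ[F] ((p : Fin (n + 1)) → Fin (p + 1) → B p) :=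
    { toFun := fun x p => x p, map_add' := fun _ _ => rfl, map_smul' := fun _ _ => rfl }
  refine Module.Finite.of_injective φ ?_
  rw [← LinearMap.ker_eq_bot, Submodule.eq_bot_iff]
  intro x hx
  funext p k
  by_cases hp : n < p
  · exact hn p hp _
  · exact congrFun (congrFun (LinearMap.mem_ker.1 hx) ⟨p, by omega⟩) k

omit [CharZero F] in
theorem frob_dif (ρ : ∀ p, B p →ₗ[F] B (p + 1)) (τ : ∀ p, B (p + 1) →ₗ[F] B p) (Φ : ∀ p, Module.End F (B p))
    (q : ℕ) (ρΦ : ∀ p x, Φ (p + 1) (ρ p x) = ρ p (Φ p x))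
    (τΦ : ∀ p x, Φ p (τ p x) = (q : F) • τ p (Φ (p + 1) x)) (x : E1 B) :
    frob q Φ (dif ρ τ x) = dif ρ τ (frob q Φ x) := by
  refine ex_ext fun p k hk => ?_
  rcases k with _ | k
  · simp only [ex_frob, ex_dif_zero, τΦ, map_smul, smul_smul, Nat.sub_zero, pow_succ]
  · obtain ⟨s, rfl⟩ : ∃ s, p = s + 1 := ⟨p - 1, by omega⟩
    simp only [ex_frob, ex_dif_succ _ _ _ (show k ≤ s by omega), map_add, τΦ, ρΦ, map_smul, smul_smul,
      smul_add]
    rw [show s + 1 - (k + 1) = s - k by omega, show s + 2 - (k + 1) = s - k + 1 by omega, pow_succ]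

theorem rz_lit [∀ p, FiniteDimensional F (B p)] (ρ : ∀ p, B p →ₗ[F] B (p + 1)) (τ : ∀ p, B (p + 1) →ₗ[F] B p)
    (n₀ n : ℕ) (hn : ∀ p, n₀ < p → ∀ x : B p, x = 0) (h L Λ Φ : ∀ p, Module.End F (B p))
    (t : ∀ p, IsSl2 (h p) (L p) (Λ p))
    (ρh : ∀ p, h (p + 1) ∘ₗ ρ p - ρ p ∘ₗ h p = ρ p) (τh : ∀ p, h p ∘ₗ τ p - τ p ∘ₗ h (p + 1) = τ p)
    (q : ℕ) (hq : 0 < q) (pure : ∀ (p : ℕ) (m : ℤ), Pure q (m + n - p) (Φ p) ⊥ ((h p).eigenspace m))
    (ρΦ : ∀ p x, Φ (p + 1) (ρ p x) = ρ p (Φ p x)) (τΦ : ∀ p x, Φ p (τ p x) = (q : F) • τ p (Φ (p + 1) x))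
    (WM : CohLefschetz (dif ρ τ) (col B) (mon B))
    {H : Type} [AddCommGroup H] [Module F H] (i : ℤ) (φ N : Module.End F H) (W : ℤ → Submodule F H)
    (π : ℤ → H →ₗ[F] E1 B)
    (ab : Abuts (difF ρ τ) (diagF h) colF (frobF q Φ) monF ((i : F) - n) φ N W π) : MwPure q i φ N := by
  have := fin_E1 n₀ hn
  have ab' : Abuts (dif ρ τ) (diag h) (col B) (frob q Φ) (mon B) ((i - n : ℤ) : F) φ N W π := by
    rw [coe_dif]; push_cast; exact ab
  have hW : IsMonFil N W := by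
    refine abuts_monfil ab' (sl2_diag t).diag (app_comm (mon_dif ρ τ)) (app_add ?_) (fun x => ?_)
      (app_comm (mon_diag h).symm) WM
    · rw [diag_dif]; simp only [ρh, τh]
    · exact ex_ext fun p k _ => by simp
  refine ⟨⟨W, hW⟩, fun M hM a => ?_⟩
  obtain rfl : M = W := funext fun a => le_antisymm (monfil_le hM hW a) (monfil_le hW hM a)
  obtain ⟨P, P0, P1, P2⟩ := col_pure n₀ n hn h Φ q hq pure i a
  exact ⟨fun x hx => ((ab'.2.2.2 a).1 x hx).2.2.2.2.1, P, P0, P1,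
    abuts_pure ab' (frob_dif ρ τ Φ q ρΦ τΦ) a _ P2⟩

theorem rz_lit_conv [∀ p, FiniteDimensional F (B p)] (ρ : ∀ p, B p →ₗ[F] B (p + 1))
    (τ : ∀ p, B (p + 1) →ₗ[F] B p)
    (n₀ n : ℕ) (hn : ∀ p, n₀ < p → ∀ x : B p, x = 0) (h L Λ Φ : ∀ p, Module.End F (B p))
    (t : ∀ p, IsSl2 (h p) (L p) (Λ p))
    (ρh : ∀ p, h (p + 1) ∘ₗ ρ p - ρ p ∘ₗ h p = ρ p) (τh : ∀ p, h p ∘ₗ τ p - τ p ∘ₗ h (p + 1) = τ p)
    (q : ℕ) (hq : 1 < q) (pure : ∀ (p : ℕ) (m : ℤ), Pure q (m + n - p) (Φ p) ⊥ ((h p).eigenspace m))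
    (ρΦ : ∀ p x, Φ (p + 1) (ρ p x) = ρ p (Φ p x)) (τΦ : ∀ p x, Φ p (τ p x) = (q : F) • τ p (Φ (p + 1) x))
    (H : ℤ → ModuleCat.{0} F) (φ N : ∀ i, Module.End F (H i)) (W : ∀ i, ℤ → Submodule F (H i))
    (π : ∀ i, ℤ → H i →ₗ[F] E1 B)
    (ab : ∀ i : ℤ, Abuts (difF ρ τ) (diagF h) colF (frobF q Φ) monF ((i : F) - n) (φ i) (N i) (W i) (π i))
    (mw : ∀ i, MwPure q i (φ i) (N i)) : CohLefschetz (dif ρ τ) (col B) (mon B) := by
  have := fin_E1 n₀ hn
  have ab' : ∀ m : ℤ, Abuts (dif ρ τ) (diag h) (col B) (frob q Φ) (mon B) (m : F) (φ (m + n)) (N (m + n))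
      (W (m + n)) (π (m + n)) := by
    intro m
    have := ab (m + n)
    rw [show (((m + n : ℤ) : F) - n) = m by push_cast; ring] at this
    rw [coe_dif]; exact this
  refine monfil_coh (fun m => H (m + n)) _ _ _ _ ab' (sl2_diag t).diag (app_comm (mon_dif ρ τ)) (app_add ?_)
    (fun x => ?_) (app_comm (mon_diag h).symm) fun m => ?_
  · rw [diag_dif]; simp only [ρh, τh]
  · exact ex_ext fun p k _ => by simp
  · obtain ⟨⟨M, hM⟩, hp⟩ := mw (m + n)
    have pW : ∀ a, (∀ x ∈ W (m + n) a, φ (m + n) x ∈ W (m + n) a) ∧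
        Pure q (a + (m + n)) (φ (m + n)) (W (m + n) (a - 1)) (W (m + n) a) := by
      intro a
      obtain ⟨P, P0, P1, P2⟩ := col_pure n₀ n hn h Φ q (by omega) pure (m + n) a
      rw [add_sub_cancel_right] at P2
      exact ⟨fun x hx => (((ab' m).2.2.2 a).1 x hx).2.2.2.2.1, P, P0, P1,
        abuts_pure (ab' m) (frob_dif ρ τ Φ q ρΦ τΦ) a _ P2⟩
    have e : M = W (m + n) := funext fun a => le_antisymm
      (weight_le hq (m + n) hM.1 hM.2.1 (ab' m).1 (ab' m).2.2.1 (hp M hM) pW a)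
      (weight_le hq (m + n) (ab' m).1 (ab' m).2.1 hM.1 hM.2.2.1 pW (hp M hM) a)
    exact e ▸ hM

end Pool.Agent.MP_855f4c_ag
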