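import Pool.Agent.MP_855f4c_ag.Lit

/-! Semisimplicity of the Laplacian at `0` from pairings and the Frobenius spectrum on the strata. -/

namespace Pool.Agent.MP_855f4c_ag

theorem IsSl2.ad_sq' {F U V : Type*} [Field F] [CharZero F] [AddCommGroup U] [Module F U]
    [AddCommGroup V] [Module F V] [FiniteDimensional F U] [FiniteDimensional F V]
    {h e f : Module.End F U} {h' e' f' : Module.End F V} (t : IsSl2 h e f) (t' : IsSl2 h' e' f')
    (T : U →ₗ[F] V) (hT : ∀ x, h' (T x) - T (h x) = T x) (eT : ∀ x, e' (T x) = T (e x)) (x : U) :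
    f' (f' (T x)) = (2 : F) • f' (T (f x)) - T (f (f x)) := by
  have t2 : IsSl2 (h.prodMap h' : Module.End F (U × V)) (e.prodMap e') (f.prodMap f') := by
    refine ⟨?_, ?_, ?_⟩ <;> refine LinearMap.ext fun x => Prod.ext ?_ ?_ <;>
      simp [t.ef, t'.ef, t.he, t'.he, t.hf, t'.hf, two_smul, two_mul]
  have := congrArg (fun S : Module.End F (U × V) => (S (x, 0)).2) (t2.ad_sq
    (LinearMap.inr F U V ∘ₗ T ∘ₗ LinearMap.fst F U V) (LinearMap.ext fun x => by simp [hT])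
      (LinearMap.ext fun x => by simp [eT]))
  simp only [Module.End.mul_apply, LinearMap.sub_apply, LinearMap.comp_apply, LinearMap.prodMap_apply,
    LinearMap.fst_apply, LinearMap.inr_apply, map_zero, Prod.mk_sub_mk, map_sub] at this
  rw [two_smul, sub_eq_iff_eq_add.mp this]
  abel

theorem lap_ss {F : Type} [Field F] [CharZero F] [IsAlgClosed F] {B : ℕ → ModuleCat.{0} F}
    [∀ p, FiniteDimensional F (B p)] {h L Λ Φ : ∀ p, Module.End F (B p)}
    (t : ∀ p, IsSl2 (h p) (L p) (Λ p)) {ρ : ∀ p, B p →ₗ[F] B (p + 1)} {τ : ∀ p, B (p + 1) →ₗ[F] B p}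
    (ρL : ∀ p x, L (p + 1) (ρ p x) = ρ p (L p x)) (τL : ∀ p x, L p (τ p x) = τ p (L (p + 1) x))
    (ρh : ∀ p x, h (p + 1) (ρ p x) - ρ p (h p x) = ρ p x)
    (τh : ∀ p x, h p (τ p x) - τ p (h (p + 1) x) = τ p x)
    (ρτ : ∀ p x, τ (p + 1) (ρ (p + 1) x) + ρ p (τ p x) = 0) {q : ℕ} (hq : 0 < q)
    (ρΦ : ∀ p x, Φ (p + 1) (ρ p x) = ρ p (Φ p x))
    (τΦ : ∀ p x, Φ p (τ p x) = (q : F) • τ p (Φ (p + 1) x))
    (hΦ : ∀ p x, Φ p (h p x) = h p (Φ p x)) (ΛΦ : ∀ p x, (q : F) • Φ p (Λ p x) = Λ p (Φ p x))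
    {G : Type} [AddCommGroup G] (s : ∀ p, B p →+ B p →+ G)
    (sΛ : ∀ p x y, s (p + 1) (Λ (p + 1) x) y = s (p + 1) x (Λ (p + 1) y))
    (sρ : ∀ p x y, s (p + 2) (ρ (p + 1) x) y = s (p + 1) x (τ (p + 1) y))
    (sτ : ∀ p x y, s (p + 1) (τ (p + 1) y) x = s (p + 2) y (ρ (p + 1) x))
    (sT : ∀ x y, s 1 (ρ 0 (Λ 0 (τ 0 x))) y = s 1 x (ρ 0 (Λ 0 (τ 0 y))))
    (iso : ∀ p (k : ℕ) (α : F) a b c y, y = τ (p + 1) a + ρ p b + Λ (p + 1) (ρ p c) → y ≠ 0 →
      Λ (p + 1) y = 0 → h (p + 1) y = -(k : F) • y → Φ (p + 1) y = α • y →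
      s (p + 1) y ((L (p + 1) ^ k) y) = 0 → ∀ x (j : ℕ), Λ (p + 1) x = 0 → h (p + 1) x = -(k : F) • x →
        ((Φ (p + 1) - α • 1) ^ j) x = 0 → ∃ r : F, x = r • y)
    (p : ℕ) (x : B (p + 1)) (hx : Λ (p + 1) x = 0) (h2 : lapF Λ ρ τ p (lapF Λ ρ τ p x) = 0) :
    lapF Λ ρ τ p x = 0 := by
  have ρτ' : ∀ p x, τ (p + 1) (ρ (p + 1) x) = -ρ p (τ p x) := fun p x =>
    eq_neg_of_add_eq_zero_left (ρτ p x)
  have ρh' := fun p x => (sub_eq_iff_eq_add.mp (ρh p x)).trans (add_comm _ _)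
  have τh' := fun p x => (sub_eq_iff_eq_add.mp (τh p x)).trans (add_comm _ _)
  obtain ⟨D, hD⟩ : ∃ D, D = lap Λ ρ τ p := ⟨_, rfl⟩
  have e : ∀ x, D x = (p + 3) • τ (p + 1) (Λ (p + 2) (ρ (p + 1) x)) + (p + 2) • (ρ p (τ p (Λ (p + 1) x)) +
      Λ (p + 1) (ρ p (τ p x))) - (p + 1) • ρ p (Λ p (τ p x)) := fun x => by
    simp only [hD, lap_apply, lapF, map_sub, ρτ', map_neg]
    module
  rw [← lap_apply, ← lap_apply, ← hD] at h2
  rw [← lap_apply, ← hD]
  have DL : ∀ x, D (L (p + 1) x) = L (p + 1) (D x) := fun x => by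
    simp only [e, map_sub, map_add, map_nsmul, ρL, τL, (t _).ef, ρh', τh', ρτ']
    module
  have Dh : ∀ x, h (p + 1) (D x) = D (h (p + 1) x) := fun x => by
    simp only [e, map_sub, map_add, map_nsmul, map_smul, (t _).hf, ρh', τh']
    module
  have DΦ : ∀ x, Φ (p + 1) (D x) = D (Φ (p + 1) x) := fun x => by
    have q0 : (q : F) ≠ 0 := by exact_mod_cast hq.ne'
    have a : ∀ p x, Φ p (Λ p x) = (q : F)⁻¹ • Λ p (Φ p x) := fun p x => by
      rw [← ΛΦ, smul_smul, inv_mul_cancel₀ q0, one_smul]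
    simp only [e, map_sub, map_add, map_nsmul, map_smul, ρΦ, τΦ, a, smul_smul, inv_mul_cancel₀ q0,
      mul_inv_cancel₀ q0, one_smul]
  have DΛ : ∀ x, Λ (p + 1) x = 0 → Λ (p + 1) (D x) = 0 := fun x hx => by
    have a1 := (t (p + 1)).ad_sq' (t (p + 2)) _ (ρh (p + 1)) (ρL (p + 1)) x
    have a2 := (t (p + 1)).ad_sq' (t p) _ (τh p) (τL p) x
    have a3 := (t (p + 2)).ad_sq' (t (p + 1)) _ (τh (p + 1)) (τL (p + 1)) (ρ (p + 1) x)
    have a4 := (t p).ad_sq' (t (p + 1)) _ (ρh p) (ρL p) (τ p x)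
    simp only [hx, map_zero, smul_zero, sub_zero] at a1 a2
    simp only [a1, a2, ρτ', map_neg, map_zero, sub_zero] at a3 a4
    refine (smul_eq_zero_iff_right (two_ne_zero (α := F))).mp ?_
    simp only [e, hx, map_sub, map_add, map_nsmul, map_zero, zero_add]
    linear_combination (norm := module) (p + 1) • a4 - (p + 3) • a3
  have Ds : ∀ x z, s (p + 1) (D x) z = s (p + 1) x (D z) := fun x z => by
    have a : ∀ x z, s (p + 1) (ρ p (τ p x)) z = s (p + 1) x (ρ p (τ p z)) := fun x z => by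
      rw [← neg_eq_iff_eq_neg.mpr (ρτ' p x), ← neg_eq_iff_eq_neg.mpr (ρτ' p z), map_neg, map_neg,
        AddMonoidHom.neg_apply, sτ, sρ]
    have b : s (p + 1) (ρ p (Λ p (τ p x))) z = s (p + 1) x (ρ p (Λ p (τ p z))) := by
      cases p
      · exact sT x z
      · rw [sρ, sΛ, sτ]
    simp only [e, map_sub, map_add, map_nsmul, AddMonoidHom.sub_apply, AddMonoidHom.add_apply,
      AddMonoidHom.nsmul_apply, a, b, sΛ, sρ, sτ]
    abel_nf
  have key : ∀ (k : ℕ) (α : F) (j : ℕ) x, Λ (p + 1) x = 0 → D (D x) = 0 → h (p + 1) x = -(k : F) • x →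
      ((Φ (p + 1) - α • 1) ^ j) x = 0 → D x = 0 := fun k α j => by
    induction j with
    | zero => intro x _ _ _ h; rw [show x = 0 from h, map_zero]
    | succ j ih =>
      intro x h1 h2 h3 h4
      have a : ∀ x, D ((Φ (p + 1) - α • 1 : Module.End F _) x) = Φ (p + 1) (D x) - α • D x := fun x => by
        simp [DΦ]
      have h5 := ih ((Φ (p + 1) - α • 1 : Module.End F _) x) (by simp [← ΛΦ, h1])
        (by rw [a, map_sub, ← DΦ, map_smul, h2, map_zero, smul_zero, sub_zero])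
        (by simp [← hΦ, h3, smul_sub, smul_smul, mul_comm]) (by rwa [pow_succ] at h4)
      by_contra h0
      obtain ⟨r, hr⟩ := iso p k α ((p + 3) • Λ (p + 2) (ρ (p + 1) x)) (-((p + 1) • Λ p (τ p x)))
        ((p + 2) • τ p x) (D x) (by simp only [e, h1, map_zero, map_nsmul, map_neg, zero_add]; abel) h0
        (DΛ x h1) (by rw [Dh, h3, map_smul]) (sub_eq_zero.mp (a x ▸ h5))
        (by rw [Ds, comm_pow DL, h2, map_zero, map_zero]) x _ h1 h3 h4
      exact h0 (by rw [hr, map_smul, h2, smul_zero])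
  refine wt_induction _ (t (p + 1)).diag (LinearMap.ker (Λ (p + 1)) ⊓ LinearMap.ker (D * D))
    (LinearMap.ker D) (fun x hx => ⟨?_, ?_⟩) (fun n x hx hn => ?_) ⟨hx, h2⟩
  · have a := (t (p + 1)).hf x
    rw [show Λ (p + 1) x = 0 from hx.1, map_zero, smul_zero, sub_zero] at a
    exact a.symm
  · show D (D _) = 0
    rw [← Dh, ← Dh, show D (D x) = 0 from hx.2, map_zero]
  rcases lt_or_ge 0 n with h0 | h0
  · obtain ⟨r, rfl⟩ : ∃ r : ℕ, n = (r + 1 : ℕ) := ⟨(n - 1).toNat, by omega⟩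
    rw [(t (p + 1)).symm.inj (r + 1) x (by rw [LinearMap.neg_apply, hn, neg_smul, Int.cast_natCast])
      (by rw [pow_succ, Module.End.mul_apply, show Λ (p + 1) x = 0 from hx.1, map_zero])]
    exact zero_mem _
  obtain ⟨k, rfl⟩ : ∃ k : ℕ, n = -k := ⟨(-n).toNat, by omega⟩
  have hM := Submodule.eq_iSup_inf_genEigenspace (f := Φ (p + 1)) (p := LinearMap.ker (Λ (p + 1)) ⊓
    LinearMap.ker (D * D) ⊓ (h (p + 1)).eigenspace (-(k : F))) ⊤ (fun x hx => ⟨⟨?_, ?_⟩, ?_⟩)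
      (Module.End.iSup_maxGenEigenspace_eq_top _)
  · refine (hM.le.trans (iSup_le fun α x hx => ?_)) ⟨hx, Module.End.mem_eigenspace_iff.mpr (by simpa using hn)⟩
    obtain ⟨j, -, hj⟩ := Module.End.mem_genEigenspace.mp hx.2
    exact key k α j x hx.1.1.1 hx.1.1.2 (Module.End.mem_eigenspace_iff.mp hx.1.2) hj
  · show Λ _ _ = 0
    rw [← ΛΦ, show Λ (p + 1) x = 0 from hx.1.1, map_zero, smul_zero]
  · show D (D _) = 0
    rw [← DΦ, ← DΦ, show D (D x) = 0 from hx.1.2, map_zero]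
  · refine Module.End.mem_eigenspace_iff.mpr ?_
    rw [← hΦ, Module.End.mem_eigenspace_iff.mp hx.2, map_smul]

end Pool.Agent.MP_855f4c_ag
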